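import Mathlib
import Pool.Agent.H53.ET.Hash
/-!
# The two towers of hashed digit sets
-/

set_option autoImplicit false
set_option linter.unusedSectionVars false

open Finset

namespace Pool.Agent.H53.ET

/-- the moduli -/
def M (g : ℕ → ℕ) : ℕ → ℕ
  | 0 => 1
  | t + 1 => M g t * g t

/-- the exponential parameter -/
noncomputable def lam (g : ℕ → ℕ) (t : ℕ) : ℝ := 1 / (2 * (t + 1) * g t)

/-- invariant -/
def Good (g : ℕ → ℕ) (t : ℕ) (P : Finset ℕ) : Prop :=
  (∀ x ∈ P, x < M g t) ∧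
    ∑ n ∈ range (M g t), Real.exp (lam g t * Z P (M g t) n) ≤ Real.exp (t + 1) * M g t

/-- admissible radices -/
structure Adm (g : ℕ → ℕ) : Prop where
  g8 : ∀ t, 8 ≤ g t
  gm : ∀ t, g t ≤ g (t + 1)

/-- the tower -/
structure Tow (g : ℕ → ℕ) (D : ℕ → Finset ℕ) (v : ℕ → ℕ → ℕ) : Prop where
  adm : Adm g
  D0 : D 0 = {0}
  D1 : D 1 = {0}
  hv : ∀ t p, v t p < g (t + 1)
  hD : ∀ t, D (t + 2) = ext (M g t) (g t) (D t) (v t)
  hZ : ∀ t n, (Z (D t) (M g t) n : ℝ) ≤ 2 * (t + 1) * g t * (Real.log (M g t) + t + 1)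

namespace Adm

variable {g : ℕ → ℕ} (h : Adm g)

include h

theorem g_pos (t : ℕ) : 0 < g t := by have := h.g8 t; omega

theorem g_mono {s t : ℕ} (hst : s ≤ t) : g s ≤ g t := monotone_nat_of_le_succ h.gm hst

theorem M_pos (t : ℕ) : 0 < M g t := by
  induction t with
  | zero => exact one_pos
  | succ t ih => exact Nat.mul_pos ih (h.g_pos t)

theorem M_step (t : ℕ) : 8 * M g t ≤ M g (t + 1) := by
  show 8 * M g t ≤ M g t * g t
  rw [mul_comm]
  exact Nat.mul_le_mul_left _ (h.g8 t)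

theorem M_mono {s t : ℕ} (hst : s ≤ t) : M g s ≤ M g t :=
  monotone_nat_of_le_succ (fun t => by have := h.M_step t; omega) hst

theorem M_ge (t : ℕ) : 8 ^ t ≤ M g t := by
  induction t with
  | zero => simp [M]
  | succ t ih =>
    have := h.M_step t
    rw [pow_succ]
    omega

theorem lam_pos (t : ℕ) : 0 < lam g t := by
  unfold lam
  have : (0 : ℝ) < g t := by exact_mod_cast h.g_pos t
  positivity

theorem lam_step (t : ℕ) : 2 * lam g (t + 2) * g t ≤ 1 / ((t : ℝ) + 3) := by
  unfold lam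
  have h1 : (g t : ℝ) ≤ g (t + 2) := by exact_mod_cast h.g_mono (by omega : t ≤ t + 2)
  have h2 : (0 : ℝ) < g t := by exact_mod_cast h.g_pos t
  have h3 : (0 : ℝ) < g (t + 2) := by exact_mod_cast h.g_pos (t + 2)
  push_cast
  have e : 2 * (1 / (2 * ((t : ℝ) + 2 + 1) * g (t + 2))) * g t
      = (g t / g (t + 2)) * (1 / ((t : ℝ) + 3)) := by
    have : (t : ℝ) + 2 + 1 = t + 3 := by ring
    rw [this]
    field_simp
  rw [e]
  have h4 : (g t : ℝ) / g (t + 2) ≤ 1 := by
    rw [div_le_one h3]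
    exact h1
  have h5 : (0 : ℝ) ≤ 1 / ((t : ℝ) + 3) := by positivity
  nlinarith

theorem lam_rec (t : ℕ) : lam g (t + 2) * (1 + 2 * lam g (t + 2) * g t) ≤ lam g t := by
  have h1 := h.lam_step t
  have hg1 : (g t : ℝ) ≤ g (t + 2) := by exact_mod_cast h.g_mono (by omega : t ≤ t + 2)
  have hg2 : (0 : ℝ) < g t := by exact_mod_cast h.g_pos t
  have h2 : lam g (t + 2) ≤ 1 / (2 * ((t : ℝ) + 3) * g t) := by
    unfold lam
    push_cast
    apply one_div_le_one_div_of_le (by positivity)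
    have : (t : ℝ) + 2 + 1 = t + 3 := by ring
    rw [this]
    gcongr
  have h3 := h.lam_pos (t + 2)
  calc lam g (t + 2) * (1 + 2 * lam g (t + 2) * g t)
      ≤ 1 / (2 * ((t : ℝ) + 3) * g t) * (1 + 1 / ((t : ℝ) + 3)) := by
        gcongr
    _ ≤ lam g t := by
        unfold lam
        have e : 1 / (2 * ((t : ℝ) + 3) * g t) * (1 + 1 / ((t : ℝ) + 3))
          = ((t : ℝ) + 4) / (2 * g t * ((t : ℝ) + 3) ^ 2) := by
          field_simp
          ring
        rw [e, div_le_div_iff₀ (by positivity) (by positivity)]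
        have h5 : (0 : ℝ) ≤ t := Nat.cast_nonneg t
        have h6 : ((t : ℝ) + 4) * (t + 1) ≤ ((t : ℝ) + 3) ^ 2 := by nlinarith
        nlinarith

theorem good_base (t : ℕ) : Good g t {0} := by
  refine ⟨by simpa using h.M_pos t, ?_⟩
  have h1 : ∀ n, lam g t * Z {0} (M g t) n ≤ (t : ℝ) + 1 := by
    intro n
    have h1 : Z {0} (M g t) n ≤ 1 := by
      unfold Z
      refine (card_filter_le _ _).trans (by simp)
    have h2 : lam g t ≤ 1 := by
      unfold lam
      have : (8 : ℝ) ≤ g t := by exact_mod_cast h.g8 t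
      have h0 : (0 : ℝ) ≤ t := Nat.cast_nonneg t
      rw [div_le_one (by positivity)]
      nlinarith
    have h3 := h.lam_pos t
    have h4 : (Z {0} (M g t) n : ℝ) ≤ 1 := by exact_mod_cast h1
    have h5 : (0 : ℝ) ≤ (Z {0} (M g t) n : ℝ) := Nat.cast_nonneg _
    have h0 : (0 : ℝ) ≤ t := Nat.cast_nonneg t
    nlinarith
  calc ∑ n ∈ range (M g t), Real.exp (lam g t * Z {0} (M g t) n)
      ≤ ∑ n ∈ range (M g t), Real.exp (t + 1) := by
        apply sum_le_sum
        intro n _
        exact Real.exp_le_exp.2 (h1 n)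
    _ = Real.exp (t + 1) * M g t := by
        rw [sum_const, card_range, nsmul_eq_mul, mul_comm]

theorem good_succ (t : ℕ) (P : Finset ℕ) (hP : Good g t P) :
    ∃ v : ℕ → ℕ, (∀ p, v p < g (t + 1)) ∧ Good g (t + 2) (ext (M g t) (g t) P v) := by
  have h0 : (0 : ℝ) ≤ t := Nat.cast_nonneg t
  have h1 : 2 * lam g (t + 2) * g t ≤ 1 := by
    refine (h.lam_step t).trans ?_
    rw [div_le_one (by positivity)]
    linarith
  have hM2 : M g (t + 2) = M g t * (g t * g (t + 1)) := by
    show M g t * g t * g (t + 1) = _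
    ring
  obtain ⟨v, hv, hsum⟩ := hash (M g t) (g t) (g (t + 1)) (h.M_pos t) (h.g_pos _) (h.gm t)
    (lam g (t + 2)) (h.lam_pos _).le h1 P hP.1
  refine ⟨v, hv, ?_, ?_⟩
  · intro x hx
    have := ext_lt hP.1 hv x hx
    rwa [hM2]
  · rw [hM2]
    refine hsum.trans ?_
    have h2 : ∑ n ∈ range (M g t), Real.exp (lam g (t + 2) * (1 + 2 * lam g (t + 2) * g t) *
        Z P (M g t) n) ≤ Real.exp (t + 1) * M g t := by
      refine le_trans (sum_le_sum ?_) hP.2
      intro n _
      apply Real.exp_le_exp.2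
      exact mul_le_mul_of_nonneg_right (h.lam_rec t) (Nat.cast_nonneg _)
    have h3 : Real.exp (2 * lam g (t + 2) * g t) ≤ Real.exp 2 := Real.exp_le_exp.2 (by linarith)
    calc _ ≤ Real.exp 2 * (((g t * g (t + 1) : ℕ) : ℝ) * (Real.exp (t + 1) * M g t)) := by
          gcongr
      _ = Real.exp (((t + 2 : ℕ) : ℝ) + 1) * ((M g t * (g t * g (t + 1)) : ℕ) : ℝ) := by
          have : Real.exp (((t + 2 : ℕ) : ℝ) + 1) = Real.exp (t + 1) * Real.exp 2 := by
            rw [← Real.exp_add]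
            push_cast
            ring_nf
          rw [this]
          push_cast
          ring

theorem good_bound {t : ℕ} {P : Finset ℕ} (hP : Good g t P) (n : ℕ) :
    (Z P (M g t) n : ℝ) ≤ 2 * (t + 1) * g t * (Real.log (M g t) + t + 1) := by
  have h0 : Z P (M g t) n = Z P (M g t) (n % M g t) := by
    unfold Z
    rw [Nat.mod_mod]
  rw [h0]
  have hM : (0 : ℝ) < M g t := by exact_mod_cast h.M_pos t
  have h1 : Real.exp (lam g t * Z P (M g t) (n % M g t)) ≤ Real.exp (t + 1) * M g t :=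
    (single_le_sum (f := fun n => Real.exp (lam g t * Z P (M g t) n))
      (fun _ _ => (Real.exp_pos _).le)
      (mem_range.2 (Nat.mod_lt n (h.M_pos t)))).trans hP.2
  have h3 : Real.exp (lam g t * Z P (M g t) (n % M g t))
      ≤ Real.exp (t + 1 + Real.log (M g t)) := by
    rw [Real.exp_add, Real.exp_log hM]
    exact h1
  have h4 := Real.exp_le_exp.1 h3
  unfold lam at h4
  have hg : (0 : ℝ) < g t := by exact_mod_cast h.g_pos t
  rw [div_mul_eq_mul_div, one_mul, div_le_iff₀ (by positivity)] at h4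
  linarith

theorem tower : ∃ (D : ℕ → Finset ℕ) (v : ℕ → ℕ → ℕ), Tow g D v := by
  have step : ∀ (t : ℕ) (P : {P : Finset ℕ // Good g t P}), ∃ v : ℕ → ℕ,
      (∀ p, v p < g (t + 1)) ∧ Good g (t + 2) (ext (M g t) (g t) P.1 v) :=
    fun t P => h.good_succ t P.1 P.2
  choose v hv hgood using step
  let Q : ∀ t : ℕ, {P : Finset ℕ // Good g t P} × {P : Finset ℕ // Good g (t + 1) P} := fun t =>
    Nat.rec (⟨{0}, h.good_base 0⟩, ⟨{0}, h.good_base 1⟩)
      (fun t P => (P.2, ⟨ext (M g t) (g t) P.1.1 (v t P.1), hgood t P.1⟩)) t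
  refine ⟨fun t => (Q t).1.1, fun t => v t (Q t).1, ⟨h, rfl, rfl, fun t p => hv t (Q t).1 p,
    fun t => rfl, ?_⟩⟩
  intro t n
  exact h.good_bound (Q t).1.2 n

end Adm

namespace Tow

variable {g : ℕ → ℕ} {D : ℕ → Finset ℕ} {v : ℕ → ℕ → ℕ} (T : Tow g D v)

include T

theorem M_succ (t : ℕ) : M g (t + 1) = M g t * g t := rfl

theorem M_two (t : ℕ) : M g (t + 2) = M g t * (g t * g (t + 1)) := by
  show M g t * g t * g (t + 1) = _
  ring

theorem D_lt : ∀ t, ∀ x ∈ D t, x < M g t := by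
  intro t
  induction t using Nat.twoStepInduction with
  | zero =>
    intro x hx
    rw [T.D0, mem_singleton] at hx
    subst hx
    exact T.adm.M_pos 0
  | one =>
    intro x hx
    rw [T.D1, mem_singleton] at hx
    subst hx
    exact T.adm.M_pos 1
  | more t ih _ =>
    intro x hx
    rw [T.hD t] at hx
    rw [T.M_two]
    exact ext_lt ih (T.hv t) x hx

theorem card_succ (t : ℕ) : (D (t + 2)).card = (D t).card * g t := by
  rw [T.hD t, card_ext (T.D_lt t)]

theorem card_mul (t : ℕ) : (D t).card * (D (t + 1)).card = M g t := by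
  induction t with
  | zero => rw [T.D0, T.D1]; simp [M]
  | succ t ih =>
    rw [T.card_succ t, T.M_succ, ← ih]
    ring

theorem card_le (t : ℕ) : (D t).card ≤ (D (t + 1)).card := by
  induction t using Nat.twoStepInduction with
  | zero => rw [T.D0, T.D1]
  | one =>
    rw [T.D1, T.card_succ 0, T.D0]
    have := T.adm.g_pos 0
    simp only [card_singleton, one_mul]
    omega
  | more t ih _ =>
    rw [T.card_succ t, T.card_succ (t + 1)]
    exact Nat.mul_le_mul ih (T.adm.gm t)

theorem card_sq (t : ℕ) : (D t).card * (D t).card ≤ M g t := by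
  rw [← T.card_mul t]
  exact Nat.mul_le_mul_left _ (T.card_le t)

/-- `s + M β ≡ n` can be solved -/
theorem exists_digit {m k s n : ℕ} (hm : 0 < m) (hk : 0 < k) (h : s ≡ n [MOD m]) :
    ∃ β < k, s + m * β ≡ n [MOD m * k] := by
  -- choose a representative of `n` above `s`
  have hn : s ≤ n + m * k * s := by
    have : 1 ≤ m * k := Nat.mul_pos hm hk
    nlinarith
  have h1 : s ≡ n + m * k * s [MOD m] := by
    refine h.trans ?_
    unfold Nat.ModEq
    rw [mul_assoc, Nat.add_mul_mod_self_left]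
  obtain ⟨q, hq⟩ := (Nat.modEq_iff_dvd' hn).1 h1
  refine ⟨q % k, Nat.mod_lt _ hk, ?_⟩
  have h2 : m * (q % k) ≡ m * q [MOD m * k] := (Nat.mod_modEq q k).mul_left' m
  have h3 : s + m * q = n + m * k * s := by omega
  have h4 : s + m * (q % k) ≡ s + m * q [MOD m * k] := Nat.ModEq.add_left s h2
  rw [h3] at h4
  refine h4.trans ?_
  unfold Nat.ModEq
  rw [Nat.add_mul_mod_self_left]

/-- existence and uniqueness of the decoding at each stage -/
theorem decode (t : ℕ) :
    (∀ n, ∃ d ∈ D t, ∃ β < g t, ∃ d' ∈ D (t + 1), d + M g t * β + d' ≡ n [MOD M g (t + 1)]) ∧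
    (∀ d ∈ D t, ∀ β < g t, ∀ d' ∈ D (t + 1), ∀ e ∈ D t, ∀ γ < g t, ∀ e' ∈ D (t + 1),
      d + M g t * β + d' ≡ e + M g t * γ + e' [MOD M g (t + 1)] → d = e ∧ β = γ ∧ d' = e') := by
  induction t with
  | zero =>
    have hM0 : M g 0 = 1 := rfl
    have hM1 : M g 1 = g 0 := by rw [T.M_succ 0, hM0, one_mul]
    rw [T.D0, T.D1, hM1, hM0]
    constructor
    · intro n
      refine ⟨0, by simp, n % g 0, Nat.mod_lt _ (T.adm.g_pos 0), 0, by simp, ?_⟩
      simp only [zero_add, one_mul, add_zero]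
      exact Nat.mod_modEq n (g 0)
    · intro d hd β hβ d' hd' e he γ hγ e' he' hmod
      rw [mem_singleton] at hd hd' he he'
      subst hd hd' he he'
      simp only [zero_add, one_mul, add_zero] at hmod
      exact ⟨rfl, Nat.ModEq.eq_of_lt_of_lt hmod hβ hγ, rfl⟩
  | succ t ih =>
    obtain ⟨ihE, ihU⟩ := ih
    have hMt := T.adm.M_pos t
    have hMt1 := T.adm.M_pos (t + 1)
    have hM2 : M g (t + 1 + 1) = M g (t + 1) * g (t + 1) := rfl
    constructor
    · intro n
      obtain ⟨d, hd, β, hβ, d', hd', hmod⟩ := ihE n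
      have hx : d + M g t * (β + g t * v t d) ∈ D (t + 2) := by
        rw [T.hD t]
        exact mem_ext.2 ⟨d, hd, β, hβ, rfl⟩
      have h1 : d' + (d + M g t * (β + g t * v t d)) ≡ n [MOD M g (t + 1)] := by
        have e : d' + (d + M g t * (β + g t * v t d))
            = (d + M g t * β + d') + M g (t + 1) * v t d := by
          rw [T.M_succ t]
          ring
        rw [e]
        unfold Nat.ModEq at hmod ⊢
        rw [Nat.add_mul_mod_self_left]
        exact hmod
      obtain ⟨γ, hγ, h2⟩ := T.exists_digit hMt1 (T.adm.g_pos (t + 1)) h1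
      refine ⟨d', hd', γ, hγ, _, hx, ?_⟩
      rw [hM2]
      have e : d' + M g (t + 1) * γ + (d + M g t * (β + g t * v t d))
          = d' + (d + M g t * (β + g t * v t d)) + M g (t + 1) * γ := by ring
      rw [e]
      exact h2
    · intro d hd β hβ d' hd' e he γ hγ e' he' hmod
      rw [T.hD t] at hd' he'
      obtain ⟨x, hx, τ, hτ, rfl⟩ := mem_ext.1 hd'
      obtain ⟨y, hy, σ, hσ, rfl⟩ := mem_ext.1 he'
      rw [hM2] at hmod
      have e1 : d + M g (t + 1) * β + (x + M g t * (τ + g t * v t x))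
          = (x + M g t * τ + d) + M g (t + 1) * (β + v t x) := by
        rw [T.M_succ t]
        ring
      have e2 : e + M g (t + 1) * γ + (y + M g t * (σ + g t * v t y))
          = (y + M g t * σ + e) + M g (t + 1) * (γ + v t y) := by
        rw [T.M_succ t]
        ring
      rw [e1, e2] at hmod
      have h1 : x + M g t * τ + d ≡ y + M g t * σ + e [MOD M g (t + 1)] := by
        have h2 := Nat.ModEq.of_mul_right _ hmod
        unfold Nat.ModEq at h2 ⊢
        rwa [Nat.add_mul_mod_self_left, Nat.add_mul_mod_self_left] at h2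
      obtain ⟨rfl, rfl, rfl⟩ := ihU x hx τ hτ d hd y hy σ hσ e he h1
      have h3 := Nat.ModEq.add_left_cancel' _ hmod
      have h4 := Nat.ModEq.mul_left_cancel' hMt1.ne' h3
      have h5 := Nat.ModEq.add_right_cancel' _ h4
      have h6 := Nat.ModEq.eq_of_lt_of_lt h5 hβ hγ
      exact ⟨rfl, h6, rfl⟩

theorem dvd_M {s t : ℕ} (hst : s ≤ t) : M g s ∣ M g t := by
  induction t, hst using Nat.le_induction with
  | base => exact dvd_rfl
  | succ t _ ih => exact ih.trans (Dvd.intro _ rfl)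

/-- compatibility of the levels of one tower -/
theorem D_mod (s k : ℕ) : ∀ x ∈ D (s + 2 * k), x % M g s ∈ D s := by
  induction k with
  | zero =>
    intro x hx
    rw [Nat.mod_eq_of_lt (T.D_lt s x hx)]
    exact hx
  | succ k ih =>
    intro x hx
    have e : s + 2 * (k + 1) = (s + 2 * k) + 2 := by ring
    rw [e, T.hD] at hx
    obtain ⟨p, hp, t, ht, rfl⟩ := mem_ext.1 hx
    obtain ⟨c, hc⟩ := T.dvd_M (show s ≤ s + 2 * k by omega)
    have h2 : (p + M g (s + 2 * k) * (t + g (s + 2 * k) * v (s + 2 * k) p)) % M g s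
        = p % M g s := by
      rw [hc, mul_assoc, Nat.add_mul_mod_self_left]
    rw [h2]
    exact ih p hp

end Tow

end Pool.Agent.H53.ET
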