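import Mathlib
import Pool.Agent.H53.ET.Tower
/-!
# The basis, the covering property and the upper bound for the representation function
-/

set_option autoImplicit false
set_option linter.unusedSectionVars false

open Finset

namespace Pool.Agent.H53.ET

/-- `r_A(n)`: the number of ordered pairs of elements of `A` with sum `n` -/
noncomputable def rep (A : Set ℕ) (n : ℕ) : ℕ :=
  {p : ℕ × ℕ | p.1 ∈ A ∧ p.2 ∈ A ∧ p.1 + p.2 = n}.ncard

/-- elements of level `t` -/
def Lev (g : ℕ → ℕ) (D : ℕ → Finset ℕ) (t : ℕ) : Set ℕ :=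
  {a | ∃ d ∈ D t, ∃ β, 1 ≤ β ∧ β ≤ 2 * g t ∧ a = d + M g t * β}

/-- the basis -/
def A (g : ℕ → ℕ) (D : ℕ → Finset ℕ) : Set ℕ := {a | ∃ t, a ∈ Lev g D t}

theorem rep_set_finite (B : Set ℕ) (n : ℕ) :
    {p : ℕ × ℕ | p.1 ∈ B ∧ p.2 ∈ B ∧ p.1 + p.2 = n}.Finite := by
  apply Set.Finite.subset (Set.finite_Iic n |>.prod (Set.finite_Iic n))
  rintro ⟨a, b⟩ ⟨_, _, h⟩
  simp only at h
  simp only [Set.mem_prod, Set.mem_Iic]
  omega

theorem rep_pos_of {B : Set ℕ} {a b n : ℕ} (ha : a ∈ B) (hb : b ∈ B) (h : a + b = n) :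
    1 ≤ rep B n :=
  (Set.ncard_pos (rep_set_finite B n)).2 ⟨(a, b), ha, hb, h⟩

theorem rep_le_card {B : Set ℕ} {n : ℕ} (F : Finset (ℕ × ℕ))
    (h : ∀ a ∈ B, ∀ b ∈ B, a + b = n → (a, b) ∈ F) : rep B n ≤ F.card := by
  unfold rep
  rw [← Set.ncard_coe_finset]
  apply Set.ncard_le_ncard _ (finite_toSet F)
  rintro ⟨a, b⟩ ⟨ha, hb, hab⟩
  exact h a ha b hb hab

namespace Tow

variable {g : ℕ → ℕ} {D : ℕ → Finset ℕ} {v : ℕ → ℕ → ℕ} (T : Tow g D v)

include T

theorem Lev_ge {t a : ℕ} (h : a ∈ Lev g D t) : M g t ≤ a := by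
  obtain ⟨d, hd, β, h1, h2, rfl⟩ := h
  calc M g t = M g t * 1 := (mul_one _).symm
    _ ≤ M g t * β := Nat.mul_le_mul_left _ h1
    _ ≤ _ := Nat.le_add_left _ _

theorem Lev_lt {t a : ℕ} (h : a ∈ Lev g D t) : a < 2 * M g (t + 1) + M g t := by
  obtain ⟨d, hd, β, h1, h2, rfl⟩ := h
  have h3 := T.D_lt t d hd
  have h4 : M g t * β ≤ M g t * (2 * g t) := Nat.mul_le_mul_left _ h2
  have h5 : M g t * (2 * g t) = 2 * M g (t + 1) := by
    rw [T.M_succ]
    ring
  omega

theorem Lev_mod {s k a : ℕ} (h : a ∈ Lev g D (s + 2 * k)) : a % M g s ∈ D s := by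
  obtain ⟨d, hd, β, h1, h2, rfl⟩ := h
  obtain ⟨c, hc⟩ := T.dvd_M (show s ≤ s + 2 * k by omega)
  have e : (d + M g (s + 2 * k) * β) % M g s = d % M g s := by
    rw [hc, mul_assoc, Nat.add_mul_mod_self_left]
  rw [e]
  exact T.D_mod s k d hd

/-- the covering property -/
theorem cover (t n : ℕ) (h1 : 2 * M g (t + 1) + M g t ≤ n)
    (h2 : n < 2 * M g (t + 2) + M g (t + 1)) :
    ∃ a ∈ Lev g D t, ∃ b ∈ Lev g D (t + 1), a + b = n := by
  obtain ⟨d, hd, β, hβ, d', hd', hmod⟩ := (T.decode t).1 (n - M g t)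
  have hdl := T.D_lt t d hd
  have hdl' := T.D_lt (t + 1) d' hd'
  have hMt := T.adm.M_pos t
  have hMt1 := T.adm.M_pos (t + 1)
  have h3 : M g t * (β + 1) ≤ M g (t + 1) := by
    rw [T.M_succ]
    exact Nat.mul_le_mul_left _ hβ
  have h4 : d + M g t * (β + 1) + d' ≤ n := by omega
  have h4' : d + M g t * (β + 1) + d' < n := by omega
  have h5 : d + M g t * (β + 1) + d' ≡ n [MOD M g (t + 1)] := by
    have h6 := Nat.ModEq.add_right (M g t) hmod
    have e : n - M g t + M g t = n := by omega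
    rw [e] at h6
    have e2 : d + M g t * β + d' + M g t = d + M g t * (β + 1) + d' := by ring
    rwa [e2] at h6
  obtain ⟨q, hq⟩ := (Nat.modEq_iff_dvd' h4).1 h5
  refine ⟨d + M g t * (β + 1), ⟨d, hd, β + 1, by omega, by omega, rfl⟩,
    d' + M g (t + 1) * q, ⟨d', hd', q, ?_, ?_, rfl⟩, by omega⟩
  · rcases Nat.eq_zero_or_pos q with h | h
    · rw [h, mul_zero] at hq
      omega
    · exact h
  · have h6 : M g (t + 1) * q < M g (t + 1) * (2 * g (t + 1) + 1) := by
      have e : M g (t + 1) * (2 * g (t + 1) + 1) = 2 * M g (t + 2) + M g (t + 1) := by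
        rw [T.M_succ (t + 1)]
        ring
      omega
    have := Nat.lt_of_mul_lt_mul_left h6
    omega

/-- representations by elements of opposite parity -/
theorem odd_pair (s n : ℕ) : ∃ c, M g s ≤ c ∧ ∀ k a b, a ∈ Lev g D s →
    b ∈ Lev g D (s + 1 + 2 * k) → a + b = n → a = c ∨ a = c + M g (s + 1) := by
  obtain ⟨d, hd, β, hβ, d', hd', hmod⟩ := (T.decode s).1 (n - M g s)
  refine ⟨d + M g s * (β + 1), ?_, ?_⟩
  · have : M g s * (β + 1) = M g s * β + M g s := by ring
    omega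
  · intro k a b ha hb hab
    have hb' := T.Lev_mod hb
    have han := T.Lev_ge ha
    obtain ⟨e, he, γ, h1, h2, rfl⟩ := ha
    have hg := T.adm.g_pos s
    have h3 : e + M g s * ((γ - 1) % g s) + b % M g (s + 1) ≡ d + M g s * β + d'
        [MOD M g (s + 1)] := by
      refine Nat.ModEq.trans ?_ hmod.symm
      have h4 : n - M g s = e + M g s * (γ - 1) + b := by
        have : M g s * γ = M g s * (γ - 1) + M g s := by
          obtain ⟨γ', rfl⟩ : ∃ γ', γ = γ' + 1 := ⟨γ - 1, by omega⟩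
          simp only [Nat.add_sub_cancel]
          ring
        omega
      rw [h4]
      apply Nat.ModEq.add
      · apply Nat.ModEq.add_left
        exact (Nat.mod_modEq (γ - 1) (g s)).mul_left' (M g s)
      · exact Nat.mod_modEq _ _
    obtain ⟨rfl, h6, -⟩ := (T.decode s).2 e he _ (Nat.mod_lt _ hg) _ hb' d hd β hβ d' hd' h3
    have h7 : γ - 1 = (γ - 1) % g s + g s * ((γ - 1) / g s) := (Nat.mod_add_div _ _).symm
    have h8 : (γ - 1) / g s < 2 := by
      rw [Nat.div_lt_iff_lt_mul hg]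
      omega
    rw [h6] at h7
    have h9 : (γ - 1) / g s = 0 ∨ (γ - 1) / g s = 1 := by
      clear h7
      generalize (γ - 1) / g s = q at h8 ⊢
      omega
    rcases h9 with h9 | h9
    · left
      rw [h9] at h7
      have : γ = β + 1 := by omega
      rw [this]
    · right
      rw [h9] at h7
      have : γ = (β + 1) + g s := by omega
      rw [this, T.M_succ s]
      ring

/-- candidates for representations by elements of the same parity -/
def candE (g : ℕ → ℕ) (D : ℕ → Finset ℕ) (s n : ℕ) : Finset (ℕ × ℕ) :=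
  (((D s ×ˢ D s).filter (fun q => (q.1 + q.2) % M g s = n % M g s)) ×ˢ Icc 1 (2 * g s)).image
    (fun x => (x.1.1 + M g s * x.2, n - (x.1.1 + M g s * x.2)))

theorem card_candE (s n : ℕ) : (candE g D s n).card ≤ Z (D s) (M g s) n * (2 * g s) := by
  refine card_image_le.trans ?_
  rw [card_product, Nat.card_Icc]
  exact le_of_eq rfl

theorem mem_candE {s k n a b : ℕ} (ha : a ∈ Lev g D s) (hb : b ∈ Lev g D (s + 2 * k))
    (hab : a + b = n) : (a, b) ∈ candE g D s n := by
  have ha' : a % M g s ∈ D s := T.Lev_mod (k := 0) ha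
  have hb' := T.Lev_mod hb
  obtain ⟨d, hd, β, h1, h2, hae⟩ := ha
  have hda : a % M g s = d := by
    rw [hae, Nat.add_mul_mod_self_left, Nat.mod_eq_of_lt (T.D_lt s d hd)]
  refine mem_image.2 ⟨((d, b % M g s), β), ?_, ?_⟩
  · simp only [mem_product, mem_filter, mem_Icc]
    refine ⟨⟨⟨hd, hb'⟩, ?_⟩, h1, h2⟩
    rw [← hda, ← Nat.add_mod, hab]
  · simp only [← hae]
    rw [Prod.mk.injEq]
    exact ⟨rfl, by omega⟩

theorem rep_le (J n : ℕ) (hn : n < M g J) :
    rep (A g D) n ≤ ∑ s ∈ range J, 2 * (Z (D s) (M g s) n * (2 * g s) + 2) := by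
  classical
  choose c hc1 hc2 using fun s => T.odd_pair s n
  let C : ℕ → Finset (ℕ × ℕ) := fun s =>
    candE g D s n ∪ {(c s, n - c s), (c s + M g (s + 1), n - (c s + M g (s + 1)))}
  let F : Finset (ℕ × ℕ) := (range J).biUnion fun s => C s ∪ (C s).image Prod.swap
  have hC : ∀ s u a b, s ≤ u → a ∈ Lev g D s → b ∈ Lev g D u → a + b = n → (a, b) ∈ C s := by
    intro s u a b hsu ha hb hab
    simp only [C, mem_union, mem_insert, mem_singleton, Prod.mk.injEq]
    obtain ⟨w, hw⟩ : ∃ w, u = s + w := ⟨u - s, by omega⟩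
    rcases Nat.even_or_odd' w with ⟨k, hk | hk⟩
    · left
      rw [hw, hk] at hb
      exact T.mem_candE ha hb hab
    · right
      have e : u = s + 1 + 2 * k := by omega
      rw [e] at hb
      rcases hc2 s k a b ha hb hab with h | h
      · left
        exact ⟨h, by omega⟩
      · right
        exact ⟨h, by omega⟩
  have hlev : ∀ s a, a ∈ Lev g D s → a ≤ n → s < J := by
    intro s a ha han
    by_contra hcon
    push Not at hcon
    have h1 := T.Lev_ge ha
    have h2 := T.adm.M_mono hcon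
    omega
  have h1 : rep (A g D) n ≤ F.card := by
    apply rep_le_card
    rintro a ⟨s, ha⟩ b ⟨u, hb⟩ hab
    simp only [F, mem_biUnion, mem_range, mem_union, mem_image]
    rcases le_total s u with h | h
    · exact ⟨s, hlev s a ha (by omega), Or.inl (hC s u a b h ha hb hab)⟩
    · exact ⟨u, hlev u b hb (by omega), Or.inr ⟨(b, a), hC u s b a h hb ha (by omega), rfl⟩⟩
  refine h1.trans (card_biUnion_le.trans (sum_le_sum fun s _ => ?_))
  have h2 : (C s).card ≤ Z (D s) (M g s) n * (2 * g s) + 2 := by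
    refine (card_union_le _ _).trans (Nat.add_le_add (T.card_candE s n) ?_)
    exact card_le_two
  have h3 : ((C s).image Prod.swap).card ≤ (C s).card := card_image_le
  have h4 := card_union_le (C s) ((C s).image Prod.swap)
  omega

/-- the bound of the representation function at `n` in terms of the last level -/
theorem rep_le' (J n : ℕ) (hn1 : M g J ≤ n) (hn : n < M g (J + 1)) :
    (rep (A g D) n : ℝ) ≤ 16 * (J + 1) ^ 2 * (g J : ℝ) ^ 2 * (Real.log n + J + 1) := by
  have h1 := T.rep_le (J + 1) n hn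
  have h2 : (rep (A g D) n : ℝ) ≤
      ∑ s ∈ range (J + 1), 2 * ((Z (D s) (M g s) n : ℝ) * (2 * g s) + 2) := by
    exact_mod_cast h1
  refine h2.trans ?_
  have hn0 : (0 : ℝ) < M g J := by exact_mod_cast T.adm.M_pos J
  have hlogn : 0 ≤ Real.log n := by
    apply Real.log_nonneg
    have h1 := T.adm.M_pos J
    have h3 : 1 ≤ n := by omega
    exact_mod_cast h3
  have hgJ : (8 : ℝ) ≤ g J := by exact_mod_cast T.adm.g8 J
  have hJ0 : (0 : ℝ) ≤ J := Nat.cast_nonneg J
  have h3 : ∀ s ∈ range (J + 1), 2 * ((Z (D s) (M g s) n : ℝ) * (2 * g s) + 2) ≤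
      16 * (J + 1) * (g J : ℝ) ^ 2 * (Real.log n + J + 1) := by
    intro s hs
    rw [mem_range] at hs
    have hsJ : (s : ℝ) ≤ J := by exact_mod_cast (by omega : s ≤ J)
    have hgs : (g s : ℝ) ≤ g J := by exact_mod_cast T.adm.g_mono (by omega : s ≤ J)
    have hgs0 : (0 : ℝ) < g s := by exact_mod_cast T.adm.g_pos s
    have hs0 : (0 : ℝ) ≤ s := Nat.cast_nonneg s
    have hMs0 : (0 : ℝ) < M g s := by exact_mod_cast T.adm.M_pos s
    have hMs1 : (1 : ℝ) ≤ M g s := by exact_mod_cast T.adm.M_pos s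
    have hlM0 : 0 ≤ Real.log (M g s) := Real.log_nonneg hMs1
    have hlM : Real.log (M g s) ≤ Real.log n := by
      apply Real.log_le_log hMs0
      exact_mod_cast (T.adm.M_mono (by omega : s ≤ J)).trans hn1
    have h4 := T.hZ s n
    have h5 : 2 * ((s : ℝ) + 1) * g s * (Real.log (M g s) + s + 1) ≤
        2 * (J + 1) * g J * (Real.log n + J + 1) := by
      gcongr
    have h6 : (Z (D s) (M g s) n : ℝ) * (2 * g s) ≤
        2 * (J + 1) * g J * (Real.log n + J + 1) * (2 * g J) := by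
      have h7 : (0 : ℝ) ≤ (Z (D s) (M g s) n : ℝ) := Nat.cast_nonneg _
      apply mul_le_mul (h4.trans h5) (by linarith) (by positivity) (by positivity)
    have h8 : (1 : ℝ) ≤ (J + 1) * (g J : ℝ) ^ 2 * (Real.log n + J + 1) := by
      have : (1 : ℝ) ≤ (g J : ℝ) ^ 2 := by nlinarith
      have h9 : (1 : ℝ) ≤ (J : ℝ) + 1 := by linarith
      have h10 : (1 : ℝ) ≤ Real.log n + J + 1 := by linarith
      have h11 : (1 : ℝ) ≤ (J + 1) * (g J : ℝ) ^ 2 := by nlinarith
      nlinarith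
    nlinarith
  refine (sum_le_sum h3).trans (le_of_eq ?_)
  rw [sum_const, card_range, nsmul_eq_mul]
  push_cast
  ring

end Tow

end Pool.Agent.H53.ET
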