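import Mathlib
import Pool.Agent.H53.ET.Sys
import Pool.Agent.H38.ETU.Main
/-!
# The converse: exceptional sets and maxima

From the variance law for all sets (`Pool.Agent.H38.ETU.law`).
-/

set_option autoImplicit false

open Finset

namespace Pool.Agent.H53.ET

open scoped Classical in
/-- the energy law for bases, from `Pool.Agent.H38.ETU.law` -/
theorem energy : ∃ δ : ℝ, 0 < δ ∧ ∀ A : Set ℕ, (∃ n₀, ∀ n ≥ n₀, 1 ≤ rep A n) →
    ∃ C : ℝ, ∀ N : ℕ, 1 ≤ N → δ * Real.log N - C ≤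
        ∑ n ∈ Icc 1 (2 * N), (if 8 ≤ rep A n then (rep A n : ℝ) ^ 2 / n else 0) := by
  obtain ⟨δ, hδ, C, hC⟩ := Pool.Agent.H38.ETU.law 1 3 le_rfl (by norm_num) (by norm_num)
  refine ⟨δ, hδ, ?_⟩
  rintro A ⟨n₀, hn₀⟩
  refine ⟨C + ∑ n ∈ Icc 1 n₀, 1 / (n : ℝ), ?_⟩
  intro N hN
  have h1 := hC A N hN
  have h2 : Pool.Agent.H38.ETU.Dlow 1 A N ≤ ∑ n ∈ Icc 1 n₀, 1 / (n : ℝ) := by
    apply sum_le_sum_of_subset_of_nonneg
    · intro n hn
      rw [mem_filter, mem_Icc] at hn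
      rw [mem_Icc]
      refine ⟨hn.1.1, ?_⟩
      by_contra h
      have h3 : 1 ≤ rep A n := hn₀ n (by omega)
      have h4 : rep A n ≤ 2 * 1 - 2 := hn.2
      omega
    · intro n _ _
      positivity
  have h3 : Pool.Agent.H38.ETU.Dhigh 3 A (2 * N) =
      ∑ n ∈ Icc 1 (2 * N), (if 8 ≤ rep A n then (rep A n : ℝ) ^ 2 / n else 0) := by
    rw [← sum_filter]
    rfl
  linarith

open scoped Classical in
theorem converse : ∃ c : ℝ, 0 < c ∧ ∀ B : Set ℕ, (∃ n₀, ∀ n ≥ n₀, 1 ≤ rep B n) →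
    ∀ X : ℕ, ∃ x ≥ X, ∀ R : ℕ, (∀ n ≤ x, rep B n ≤ R) →
      c * x ≤ (R : ℝ) ^ 2 * (((Icc 1 x).filter (fun n => 8 ≤ rep B n)).card : ℝ) := by
  obtain ⟨δ, hδ, hlaw⟩ := energy
  refine ⟨δ / 4, by positivity, ?_⟩
  intro B hB X
  obtain ⟨C, hC⟩ := hlaw B hB
  by_contra hcon
  push Not at hcon
  set F : ℕ → ℝ := fun n => if 8 ≤ rep B n then (rep B n : ℝ) ^ 2 / n else 0 with hF
  let S : ℕ → ℝ := fun N => ∑ n ∈ Ioc 0 N, F n
  have hIcc : ∀ N, Icc 1 N = Ioc 0 N := by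
    intro N
    ext n
    simp only [mem_Icc, mem_Ioc]
    omega
  have hX : X ≤ 2 ^ X := Nat.lt_two_pow_self.le
  -- dyadic steps
  have hstep : ∀ j, X ≤ j → S (2 ^ (j + 1)) ≤ S (2 ^ j) + δ / 2 := by
    intro j hj
    have hXj : X ≤ 2 ^ (j + 1) :=
      hX.trans (Nat.pow_le_pow_right (by norm_num) (by omega))
    obtain ⟨R, hR, hlt⟩ := hcon (2 ^ (j + 1)) hXj
    have h1 : S (2 ^ (j + 1)) = S (2 ^ j) + ∑ n ∈ Ioc (2 ^ j) (2 ^ (j + 1)), F n := by
      show ∑ n ∈ Ioc 0 (2 ^ (j + 1)), F n = ∑ n ∈ Ioc 0 (2 ^ j), F n + _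
      rw [sum_Ioc_consecutive F (Nat.zero_le _)
        (Nat.pow_le_pow_right (by norm_num) (by omega))]
    rw [h1]
    have hj0 : (0 : ℝ) < 2 ^ j := by positivity
    have h2 : ∑ n ∈ Ioc (2 ^ j) (2 ^ (j + 1)), F n ≤
        ((Icc 1 (2 ^ (j + 1))).filter (fun n => 8 ≤ rep B n)).card * ((R : ℝ) ^ 2 / 2 ^ j) := by
      have h3 : ∑ n ∈ Ioc (2 ^ j) (2 ^ (j + 1)), F n ≤
          ∑ n ∈ (Ioc (2 ^ j) (2 ^ (j + 1))).filter (fun n => 8 ≤ rep B n),
            (R : ℝ) ^ 2 / 2 ^ j := by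
        simp only [hF]
        rw [← sum_filter]
        apply sum_le_sum
        intro n hn
        rw [mem_filter, mem_Ioc] at hn
        have h4 : (rep B n : ℝ) ≤ R := by exact_mod_cast hR n hn.1.2
        have h5 : (2 : ℝ) ^ j ≤ n := by exact_mod_cast hn.1.1.le
        have h6 : (0 : ℝ) ≤ (rep B n : ℝ) := Nat.cast_nonneg _
        gcongr
      refine h3.trans ?_
      rw [sum_const, nsmul_eq_mul]
      apply mul_le_mul_of_nonneg_right _ (by positivity)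
      have h7 : (Ioc (2 ^ j) (2 ^ (j + 1))).filter (fun n => 8 ≤ rep B n) ⊆
          (Icc 1 (2 ^ (j + 1))).filter (fun n => 8 ≤ rep B n) := by
        apply filter_subset_filter
        intro n hn
        rw [mem_Ioc] at hn
        rw [mem_Icc]
        exact ⟨by omega, hn.2⟩
      exact_mod_cast card_le_card h7
    have h3 : ((Icc 1 (2 ^ (j + 1))).filter (fun n => 8 ≤ rep B n)).card *
        ((R : ℝ) ^ 2 / 2 ^ j) ≤ δ / 2 := by
      rw [← mul_div_assoc, div_le_iff₀ hj0]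
      push_cast at hlt
      have e2 : (2 : ℝ) ^ (j + 1) = 2 ^ j * 2 := pow_succ _ _
      rw [e2] at hlt
      linarith
    linarith
  have hsum : ∀ k, S (2 ^ (X + k)) ≤ S (2 ^ X) + k * (δ / 2) := by
    intro k
    induction k with
    | zero => simp
    | succ k ih =>
      have h1 := hstep (X + k) (by omega)
      have e : X + (k + 1) = X + k + 1 := by ring
      rw [e]
      push_cast
      linarith
  -- the law
  have hlog2 : (0.69 : ℝ) < Real.log 2 := by have := Real.log_two_gt_d9; linarith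
  have hlow : ∀ k : ℕ, δ * ((X + k : ℕ) * Real.log 2) - C ≤ S (2 ^ (X + k)) + δ / 2 := by
    intro k
    have h1 := hC (2 ^ (X + k)) Nat.one_le_two_pow
    rw [hIcc] at h1
    have e : 2 * 2 ^ (X + k) = 2 ^ (X + k + 1) := by rw [pow_succ]; ring
    rw [e] at h1
    have h2 := hstep (X + k) (by omega)
    have h3 : Real.log ((2 ^ (X + k) : ℕ) : ℝ) = (X + k : ℕ) * Real.log 2 := by
      push_cast
      rw [Real.log_pow]
      push_cast
      ring
    rw [h3] at h1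
    have h4 : ∑ n ∈ Ioc 0 (2 ^ (X + k + 1)), F n = S (2 ^ (X + k + 1)) := rfl
    have h5 : δ * ((X + k : ℕ) * Real.log 2) - C ≤ S (2 ^ (X + k + 1)) := h1
    linarith
  obtain ⟨k, hk⟩ := exists_nat_gt ((C + S (2 ^ X) + δ / 2) / (δ * 0.19))
  have h1 := hsum k
  have h2 := hlow k
  rw [div_lt_iff₀ (by positivity)] at hk
  push_cast at h2
  have h3 : (0 : ℝ) ≤ X := Nat.cast_nonneg X
  have h4 : (0 : ℝ) ≤ k := Nat.cast_nonneg k
  have h5 : δ * (((X : ℝ) + k) * 0.69) ≤ δ * (((X : ℝ) + k) * Real.log 2) := by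
    gcongr
  nlinarith [mul_nonneg hδ.le h3]

end Pool.Agent.H53.ET
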