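import Mathlib
import Pool.Agent.H53.ET.Conv
/-!
# Corollaries of the converse
-/

set_option autoImplicit false

open Finset

namespace Pool.Agent.H53.ET

theorem rep_le_succ (B : Set ℕ) (n : ℕ) : rep B n ≤ n + 1 := by
  unfold rep
  calc _ ≤ ((Finset.HasAntidiagonal.antidiagonal n : Finset (ℕ × ℕ)) : Set (ℕ × ℕ)).ncard := by
        refine Set.ncard_le_ncard ?_ (Finset.finite_toSet _)
        rintro ⟨a, b⟩ ⟨-, -, h⟩
        simpa using h
    _ = n + 1 := by rw [Set.ncard_coe_finset]; simp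

open scoped Classical in
theorem cor_log (B : Set ℕ) (K D : ℕ) (C : ℝ) (hB : ∃ n₀, ∀ n ≥ n₀, 1 ≤ rep B n)
    (h1 : ∀ n : ℕ, 2 ≤ n → (rep B n : ℝ) ≤ C * Real.log n ^ K)
    (h2 : ∀ x : ℕ, 2 ≤ x → (((Icc 1 x).filter (fun n => 8 ≤ rep B n)).card : ℝ) ≤
      C * x / Real.log x ^ D) : D ≤ 2 * K := by
  by_contra hcon
  push Not at hcon
  obtain ⟨c, hc, hconv⟩ := converse
  set C' : ℝ := |C| + 2 with hC'
  have hCC' : C ≤ C' := by have := le_abs_self C; linarith
  have hC'2 : 2 ≤ C' := by have := abs_nonneg C; linarith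
  obtain ⟨X, hX⟩ := exists_nat_gt (Real.exp (C' ^ 3 / c + 1))
  obtain ⟨x, hx, hR⟩ := hconv B hB X
  have hxX : Real.exp (C' ^ 3 / c + 1) < x := hX.trans_le (by exact_mod_cast hx)
  have hx0 : (0 : ℝ) < x := (Real.exp_pos _).trans hxX
  have hlog : C' ^ 3 / c + 1 < Real.log x := by
    rw [Real.lt_log_iff_exp_lt hx0]
    exact hxX
  have hq : 0 < C' ^ 3 / c := by positivity
  have hlog1 : 1 < Real.log x := by linarith
  have hx2 : 2 ≤ x := by
    by_contra h
    have h3 : x ≤ 1 := by omega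
    have h4 : (x : ℝ) ≤ 1 := by exact_mod_cast h3
    have := Real.log_nonpos hx0.le h4
    linarith
  have hrep : ∀ n ≤ x, rep B n ≤ ⌊C' * Real.log x ^ K⌋₊ := by
    intro n hn
    apply Nat.le_floor
    have hK1 : 1 ≤ Real.log x ^ K := one_le_pow₀ hlog1.le
    rcases Nat.lt_or_ge n 2 with h | h
    · have h3 : rep B n ≤ 2 := (rep_le_succ B n).trans (by omega)
      have h4 : (rep B n : ℝ) ≤ 2 := by exact_mod_cast h3
      nlinarith
    · refine (h1 n h).trans ?_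
      have h3 : 0 ≤ Real.log n := Real.log_natCast_nonneg n
      have hn0 : (0 : ℝ) < n := by exact_mod_cast (by omega : 0 < n)
      have h4 : Real.log n ≤ Real.log x := Real.log_le_log hn0 (by exact_mod_cast hn)
      calc C * Real.log n ^ K ≤ C' * Real.log n ^ K :=
            mul_le_mul_of_nonneg_right hCC' (by positivity)
        _ ≤ C' * Real.log x ^ K := by gcongr
  have h3 := hR _ hrep
  have h4 : (⌊C' * Real.log x ^ K⌋₊ : ℝ) ≤ C' * Real.log x ^ K :=
    Nat.floor_le (by positivity)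
  have h5 := h2 x hx2
  have h6 : C * x / Real.log x ^ D ≤ C' * x / Real.log x ^ D := by gcongr
  have h7 : c * x ≤ (C' * Real.log x ^ K) ^ 2 * (C' * x / Real.log x ^ D) := by
    refine h3.trans ?_
    have h8 := h5.trans h6
    gcongr
  have h8 : Real.log x ^ (2 * K) * Real.log x ≤ Real.log x ^ D := by
    rw [← pow_succ]
    exact pow_le_pow_right₀ hlog1.le hcon
  have hD0 : 0 < Real.log x ^ D := by positivity
  have h9 : (C' * Real.log x ^ K) ^ 2 * (C' * x / Real.log x ^ D) =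
      (C' ^ 3 * x) * (Real.log x ^ (2 * K) / Real.log x ^ D) := by
    have : Real.log x ^ (2 * K) = (Real.log x ^ K) ^ 2 := by
      rw [← pow_mul, mul_comm 2 K]
    rw [this]
    field_simp
  rw [h9] at h7
  have h10 : Real.log x ^ (2 * K) / Real.log x ^ D ≤ 1 / Real.log x := by
    rw [div_le_div_iff₀ hD0 (by linarith)]
    linarith
  have h11 : c * x ≤ (C' ^ 3 * x) * (1 / Real.log x) := h7.trans (by gcongr)
  have h12 : c * Real.log x ≤ C' ^ 3 := by
    have h13 : (C' ^ 3 * x) * (1 / Real.log x) = (C' ^ 3 / Real.log x) * x := by ring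
    rw [h13] at h11
    have h14 := le_of_mul_le_mul_right h11 hx0
    rwa [le_div_iff₀ (by linarith)] at h14
  have h13 : C' ^ 3 / c + 1 < C' ^ 3 / c := by
    calc C' ^ 3 / c + 1 < Real.log x := hlog
      _ ≤ C' ^ 3 / c := by
          rw [le_div_iff₀ hc]
          linarith
  linarith

open scoped Classical in
theorem cor_pow (B : Set ℕ) (η θ C : ℝ) (hη : 0 ≤ η) (hB : ∃ n₀, ∀ n ≥ n₀, 1 ≤ rep B n)
    (h1 : ∀ n : ℕ, 1 ≤ n → (rep B n : ℝ) ≤ C * (n : ℝ) ^ η)
    (h2 : ∀ x : ℕ, 1 ≤ x → (((Icc 1 x).filter (fun n => 8 ≤ rep B n)).card : ℝ) ≤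
      C * (x : ℝ) ^ (1 - θ)) : θ ≤ 2 * η := by
  by_contra hcon
  push Not at hcon
  obtain ⟨c, hc, hconv⟩ := converse
  set C' : ℝ := |C| + 2 with hC'
  have hCC' : C ≤ C' := by have := le_abs_self C; linarith
  have hC'2 : 2 ≤ C' := by have := abs_nonneg C; linarith
  have hlim := (tendsto_rpow_neg_atTop (show 0 < θ - 2 * η by linarith)).comp
    tendsto_natCast_atTop_atTop
  have hev := hlim.eventually (gt_mem_nhds (show 0 < c / C' ^ 3 by positivity))
  obtain ⟨X, hX⟩ := Filter.eventually_atTop.1 hev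
  obtain ⟨x, hx, hR⟩ := hconv B hB (X + 1)
  have hx1 : 1 ≤ x := by omega
  have hx1' : (1 : ℝ) ≤ x := by exact_mod_cast hx1
  have hx0 : (0 : ℝ) < x := by linarith
  have hsmall := hX x (by omega)
  simp only [Function.comp_apply] at hsmall
  have hrep : ∀ n ≤ x, rep B n ≤ ⌊C' * (x : ℝ) ^ η⌋₊ := by
    intro n hn
    apply Nat.le_floor
    have hK1 : 1 ≤ (x : ℝ) ^ η := Real.one_le_rpow hx1' hη
    rcases Nat.lt_or_ge n 1 with h | h
    · have h3 : rep B n ≤ 2 := (rep_le_succ B n).trans (by omega)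
      have h4 : (rep B n : ℝ) ≤ 2 := by exact_mod_cast h3
      nlinarith
    · refine (h1 n h).trans ?_
      have hn0 : (0 : ℝ) < n := by exact_mod_cast (by omega : 0 < n)
      have h4 : (n : ℝ) ^ η ≤ (x : ℝ) ^ η :=
        Real.rpow_le_rpow hn0.le (by exact_mod_cast hn) hη
      calc C * (n : ℝ) ^ η ≤ C' * (n : ℝ) ^ η :=
            mul_le_mul_of_nonneg_right hCC' (by positivity)
        _ ≤ C' * (x : ℝ) ^ η := by gcongr
  have h3 := hR _ hrep
  have h4 : (⌊C' * (x : ℝ) ^ η⌋₊ : ℝ) ≤ C' * (x : ℝ) ^ η :=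
    Nat.floor_le (by positivity)
  have h5 := h2 x hx1
  have h6 : C * (x : ℝ) ^ (1 - θ) ≤ C' * (x : ℝ) ^ (1 - θ) := by gcongr
  have h7 : c * x ≤ (C' * (x : ℝ) ^ η) ^ 2 * (C' * (x : ℝ) ^ (1 - θ)) := by
    refine h3.trans ?_
    have h8 := h5.trans h6
    gcongr
  have h9 : (C' * (x : ℝ) ^ η) ^ 2 * (C' * (x : ℝ) ^ (1 - θ)) =
      (C' ^ 3 * (x : ℝ) ^ (-(θ - 2 * η))) * x := by
    have e1 : (x : ℝ) ^ (-(θ - 2 * η)) * x = ((x : ℝ) ^ η) ^ 2 * (x : ℝ) ^ (1 - θ) := by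
      have e2 : ((x : ℝ) ^ η) ^ 2 = (x : ℝ) ^ (2 * η) := by
        rw [two_mul, Real.rpow_add hx0]
        ring
      rw [e2, ← Real.rpow_add hx0]
      nth_rewrite 2 [← Real.rpow_one (x : ℝ)]
      rw [← Real.rpow_add hx0]
      congr 1
      ring
    calc _ = C' ^ 3 * (((x : ℝ) ^ η) ^ 2 * (x : ℝ) ^ (1 - θ)) := by ring
      _ = _ := by rw [← e1]; ring
  rw [h9] at h7
  have h10 := le_of_mul_le_mul_right h7 hx0
  rw [lt_div_iff₀ (by positivity)] at hsmall
  linarith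

end Pool.Agent.H53.ET
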