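import Mathlib
import Pool.Agent.H53.ET.Sys
/-!
# The exceptional integers
-/

set_option autoImplicit false
set_option linter.unusedSectionVars false

open Finset

namespace Pool.Agent.H53.ET

/-- elements of level `t` as a finite set -/
def LevF (g : ℕ → ℕ) (D : ℕ → Finset ℕ) (t : ℕ) : Finset ℕ :=
  (D t ×ˢ Icc 1 (2 * g t)).image (fun x => x.1 + M g t * x.2)

/-- elements of level less than `t` -/
def LowF (g : ℕ → ℕ) (D : ℕ → Finset ℕ) (t : ℕ) : Finset ℕ := (range t).biUnion (LevF g D)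

theorem mem_LevF {g : ℕ → ℕ} {D : ℕ → Finset ℕ} {t a : ℕ} :
    a ∈ LevF g D t ↔ a ∈ Lev g D t := by
  simp only [LevF, Lev, mem_image, mem_product, mem_Icc, Prod.exists, Set.mem_ofPred_eq]
  constructor
  · rintro ⟨d, β, ⟨hd, h1, h2⟩, h3⟩
    exact ⟨d, hd, β, h1, h2, h3.symm⟩
  · rintro ⟨d, hd, β, h1, h2, h3⟩
    exact ⟨d, β, ⟨hd, h1, h2⟩, h3.symm⟩

theorem mem_LowF {g : ℕ → ℕ} {D : ℕ → Finset ℕ} {t a : ℕ} :
    a ∈ LowF g D t ↔ ∃ s < t, a ∈ Lev g D s := by
  simp only [LowF, mem_biUnion, mem_range, mem_LevF]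

namespace Tow

variable {g : ℕ → ℕ} {D : ℕ → Finset ℕ} {v : ℕ → ℕ → ℕ} (T : Tow g D v)

include T

theorem card_LevF (t : ℕ) : (LevF g D t).card ≤ 2 * (D (t + 2)).card := by
  refine card_image_le.trans ?_
  rw [card_product, Nat.card_Icc, T.card_succ t]
  simp only [Nat.add_sub_cancel]
  exact le_of_eq (by ring)

theorem card_LowF_succ (t : ℕ) :
    (LowF g D (t + 1)).card ≤ (LowF g D t).card + 2 * (D (t + 2)).card := by
  have : LowF g D (t + 1) = LevF g D t ∪ LowF g D t := by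
    unfold LowF
    rw [range_add_one, biUnion_insert]
  rw [this]
  have h1 := card_union_le (LevF g D t) (LowF g D t)
  have h2 := T.card_LevF t
  omega

theorem card_LowF (t : ℕ) : (LowF g D t).card ≤ 5 * (D (t + 1)).card := by
  induction t using Nat.twoStepInduction with
  | zero => simp [LowF]
  | one =>
    have h := T.card_LowF_succ 0
    have : (LowF g D 0).card = 0 := by simp [LowF]
    simp only [zero_add, this] at h
    show (LowF g D 1).card ≤ 5 * (D 2).card
    omega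
  | more t ih _ =>
    have h1 := T.card_LowF_succ t
    have h2 := T.card_LowF_succ (t + 1)
    have h3 := T.card_le (t + 2)
    have h4 := T.card_succ (t + 1)
    have h5 := T.adm.g8 (t + 1)
    have h6 : (D (t + 1)).card * 8 ≤ (D (t + 1)).card * g (t + 1) := Nat.mul_le_mul_left _ h5
    show (LowF g D (t + 2)).card ≤ 5 * (D (t + 3)).card
    have e1 : t + 1 + 1 = t + 2 := rfl
    have e2 : t + 1 + 2 = t + 3 := rfl
    have e3 : t + 2 + 1 = t + 3 := rfl
    rw [e1, e2] at h2
    rw [e3] at h3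
    rw [e2] at h4
    omega

/-- the elements of level `t` up to `x` -/
theorem quot_bound {t x d γ : ℕ} (h : d + M g t * γ ≤ x) : γ ≤ x / M g t := by
  rw [Nat.le_div_iff_mul_le (T.adm.M_pos t)]
  calc γ * M g t = M g t * γ := mul_comm _ _
    _ ≤ _ := by omega

theorem L5 (t x : ℕ) (N : Finset ℕ) (hN : ∀ n ∈ N, n ≤ x ∧
    ∃ a ∈ LowF g D t, ∃ b ∈ Lev g D (t + 2), a + b = n) : N.card * g (t + 1) ≤ 5 * x := by
  let U : Finset ℕ := (D (t + 2) ×ˢ Icc 1 (x / M g (t + 2))).image
    (fun y => y.1 + M g (t + 2) * y.2)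
  have h1 : N ⊆ (LowF g D t ×ˢ U).image (fun y => y.1 + y.2) := by
    intro n hn
    obtain ⟨hnx, a, ha, b, hb, hab⟩ := hN n hn
    refine mem_image.2 ⟨(a, b), mem_product.2 ⟨ha, ?_⟩, hab⟩
    obtain ⟨d, hd, γ, h1, h2, hbe⟩ := hb
    refine mem_image.2 ⟨(d, γ), mem_product.2 ⟨hd, mem_Icc.2 ⟨h1, ?_⟩⟩, hbe.symm⟩
    show γ ≤ x / M g (t + 2)
    exact T.quot_bound (d := d) (by omega)
  have hU : U.card ≤ (D (t + 2)).card * (x / M g (t + 2)) := by
    refine card_image_le.trans ?_
    rw [card_product, Nat.card_Icc, Nat.add_sub_cancel]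
  have h2 : N.card ≤ 5 * (D (t + 1)).card * ((D (t + 2)).card * (x / M g (t + 2))) := by
    refine (card_le_card h1).trans (card_image_le.trans ?_)
    rw [card_product]
    exact Nat.mul_le_mul (T.card_LowF t) hU
  have h3 := T.card_mul (t + 1)
  have e1 : t + 1 + 1 = t + 2 := rfl
  rw [e1] at h3
  calc N.card * g (t + 1)
      ≤ 5 * (D (t + 1)).card * ((D (t + 2)).card * (x / M g (t + 2))) * g (t + 1) :=
        Nat.mul_le_mul_right _ h2
    _ = 5 * (((D (t + 1)).card * (D (t + 2)).card) * g (t + 1) * (x / M g (t + 2))) := by ring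
    _ = 5 * (M g (t + 2) * (x / M g (t + 2))) := by
        rw [h3]
        rfl
    _ ≤ 5 * x := Nat.mul_le_mul_left _ (Nat.mul_div_le _ _)

/-- sums `P_t + P_(t+2)` -/
theorem L4 (t x : ℕ) (N : Finset ℕ) (hN : ∀ n ∈ N, n ≤ x ∧
    ∃ a ∈ Lev g D t, ∃ b ∈ Lev g D (t + 2), a + b = n) : N.card * g (t + 1) ≤ 3 * x := by
  have h1 : N ⊆ (((D t ×ˢ D t) ×ˢ range (3 * g t)) ×ˢ Icc 1 (x / M g (t + 2))).image
      (fun y => y.1.1.1 + y.1.1.2 + M g t * y.1.2 + M g t * (g t * v t y.1.1.2)
        + M g (t + 2) * y.2) := by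
    intro n hn
    obtain ⟨hnx, a, ha, b, hb, hab⟩ := hN n hn
    obtain ⟨e, he, β, h1, h2, rfl⟩ := ha
    obtain ⟨d, hd, γ, h3, h4, rfl⟩ := hb
    rw [T.hD t] at hd
    obtain ⟨e', he', τ, hτ, rfl⟩ := mem_ext.1 hd
    refine mem_image.2 ⟨(((e, e'), β + τ), γ), ?_, ?_⟩
    · simp only [mem_product, mem_range, mem_Icc]
      refine ⟨⟨⟨he, he'⟩, by omega⟩, h3, ?_⟩
      exact T.quot_bound (d := e' + M g t * (τ + g t * v t e')) (by omega)
    · simp only
      rw [← hab]
      ring
  have h2 : N.card ≤ (D t).card * (D t).card * (3 * g t) * (x / M g (t + 2)) := by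
    refine (card_le_card h1).trans (card_image_le.trans (le_of_eq ?_))
    rw [card_product, card_product, card_product, Nat.card_Icc, card_range, Nat.add_sub_cancel]
  calc N.card * g (t + 1)
      ≤ (D t).card * (D t).card * (3 * g t) * (x / M g (t + 2)) * g (t + 1) :=
        Nat.mul_le_mul_right _ h2
    _ ≤ M g t * (3 * g t) * (x / M g (t + 2)) * g (t + 1) := by
        apply Nat.mul_le_mul_right
        apply Nat.mul_le_mul_right
        exact Nat.mul_le_mul_right _ (T.card_sq t)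
    _ = 3 * (M g (t + 2) * (x / M g (t + 2))) := by
        rw [T.M_two]
        ring
    _ ≤ 3 * x := Nat.mul_le_mul_left _ (Nat.mul_div_le _ _)

/-- sums `P_(t+2) + P_(t+2)` -/
theorem L3 (t x : ℕ) (N : Finset ℕ) (hN : ∀ n ∈ N, n ≤ x ∧
    ∃ a ∈ Lev g D (t + 2), ∃ b ∈ Lev g D (t + 2), a + b = n) : N.card * g (t + 1) ≤ 2 * x := by
  have h1 : N ⊆ (((D t ×ˢ D t) ×ˢ range (2 * g t)) ×ˢ Icc 1 (x / M g (t + 2))).image
      (fun y => y.1.1.1 + y.1.1.2 + M g t * y.1.2 + M g t * (g t * (v t y.1.1.1 + v t y.1.1.2))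
        + M g (t + 2) * y.2) := by
    intro n hn
    obtain ⟨hnx, a, ha, b, hb, hab⟩ := hN n hn
    obtain ⟨d, hd, β, h1, h2, rfl⟩ := ha
    obtain ⟨d', hd', γ, h3, h4, rfl⟩ := hb
    rw [T.hD t] at hd hd'
    obtain ⟨e, he, τ, hτ, rfl⟩ := mem_ext.1 hd
    obtain ⟨e', he', σ, hσ, rfl⟩ := mem_ext.1 hd'
    refine mem_image.2 ⟨(((e, e'), τ + σ), β + γ), ?_, ?_⟩
    · simp only [mem_product, mem_range, mem_Icc]
      refine ⟨⟨⟨he, he'⟩, by omega⟩, by omega, ?_⟩
      refine T.quot_bound (d := 0) ?_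
      have : M g (t + 2) * (β + γ) = M g (t + 2) * β + M g (t + 2) * γ := by ring
      omega
    · simp only
      rw [← hab]
      ring
  have h2 : N.card ≤ (D t).card * (D t).card * (2 * g t) * (x / M g (t + 2)) := by
    refine (card_le_card h1).trans (card_image_le.trans (le_of_eq ?_))
    rw [card_product, card_product, card_product, Nat.card_Icc, card_range, Nat.add_sub_cancel]
  calc N.card * g (t + 1)
      ≤ (D t).card * (D t).card * (2 * g t) * (x / M g (t + 2)) * g (t + 1) :=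
        Nat.mul_le_mul_right _ h2
    _ ≤ M g t * (2 * g t) * (x / M g (t + 2)) * g (t + 1) := by
        apply Nat.mul_le_mul_right
        apply Nat.mul_le_mul_right
        exact Nat.mul_le_mul_right _ (T.card_sq t)
    _ = 2 * (M g (t + 2) * (x / M g (t + 2))) := by
        rw [T.M_two]
        ring
    _ ≤ 2 * x := Nat.mul_le_mul_left _ (Nat.mul_div_le _ _)

/-- the exceptional event at stage `k + 3` -/
def Exc (g : ℕ → ℕ) (D : ℕ → Finset ℕ) (k n : ℕ) : Prop :=
  n < 2 * M g (k + 3) + 4 * M g (k + 2) ∨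
  (∃ a ∈ LowF g D (k + 1), ∃ b ∈ Lev g D (k + 3), a + b = n) ∨
  (∃ a ∈ Lev g D (k + 1), ∃ b ∈ Lev g D (k + 3), a + b = n) ∨
  (∃ a ∈ Lev g D (k + 3), ∃ b ∈ Lev g D (k + 3), a + b = n) ∨
  (∃ a ∈ LowF g D (k + 2), ∃ b ∈ Lev g D (k + 4), a + b = n) ∨
  (∃ a ∈ Lev g D (k + 2), ∃ b ∈ Lev g D (k + 4), a + b = n) ∨
  (∃ a ∈ Lev g D (k + 4), ∃ b ∈ Lev g D (k + 4), a + b = n) ∨
  (∃ a ∈ Lev g D (k + 2), ∃ b ∈ Lev g D (k + 2), a + b = n)

/-- ordered pairs of levels -/
theorem classify {k n s u a b : ℕ} (ha : a ∈ Lev g D s) (hb : b ∈ Lev g D u) (hsu : s ≤ u)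
    (hab : a + b = n) (h2 : n < 2 * M g (k + 4) + M g (k + 3)) (hE : ¬ Exc g D k n) :
    (s = k + 2 ∧ u = k + 3) ∨ (s = k + 3 ∧ u = k + 4) := by
  unfold Exc at hE
  push Not at hE
  obtain ⟨e1, e2, e3, e4, e5, e6, e7, e8⟩ := hE
  have hu : u ≤ k + 4 := by
    by_contra hcon
    push Not at hcon
    have h3 := T.Lev_ge hb
    have h4 := T.adm.M_mono (show k + 5 ≤ u from hcon)
    have h5 := T.adm.M_step (k + 4)
    have h6 := T.adm.M_step (k + 3)
    have e : k + 4 + 1 = k + 5 := rfl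
    have e' : k + 3 + 1 = k + 4 := rfl
    rw [e] at h5
    rw [e'] at h6
    omega
  have hM2 : 8 * M g (k + 1) ≤ M g (k + 2) := T.adm.M_step (k + 1)
  have hM3 : 8 * M g (k + 2) ≤ M g (k + 3) := T.adm.M_step (k + 2)
  rcases Nat.lt_or_ge u (k + 2) with h | h
  · -- both are small
    exfalso
    have h3 := T.Lev_lt ha
    have h4 := T.Lev_lt hb
    have h5 : M g (u + 1) ≤ M g (k + 2) := T.adm.M_mono (by omega)
    have h6 : M g (s + 1) ≤ M g (k + 2) := T.adm.M_mono (by omega)
    have h7 : M g u ≤ M g (k + 1) := T.adm.M_mono (by omega)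
    have h8 : M g s ≤ M g (k + 1) := T.adm.M_mono (by omega)
    omega
  · have h3 : u = k + 2 ∨ u = k + 3 ∨ u = k + 4 := by omega
    rcases h3 with rfl | rfl | rfl
    · exfalso
      rcases Nat.lt_or_ge s (k + 2) with h4 | h4
      · have h3 := T.Lev_lt ha
        have h4 := T.Lev_lt hb
        have h6 : M g (s + 1) ≤ M g (k + 2) := T.adm.M_mono (by omega)
        have h8 : M g s ≤ M g (k + 1) := T.adm.M_mono (by omega)
        have e : k + 2 + 1 = k + 3 := rfl
        rw [e] at h4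
        omega
      · have h5 : s = k + 2 := by omega
        subst h5
        exact e8 a ha b hb hab
    · have h4 : s < k + 1 ∨ s = k + 1 ∨ s = k + 2 ∨ s = k + 3 := by omega
      rcases h4 with h4 | rfl | rfl | rfl
      · exact absurd hab (e2 a (mem_LowF.2 ⟨s, h4, ha⟩) b hb)
      · exact absurd hab (e3 a ha b hb)
      · exact Or.inl ⟨rfl, rfl⟩
      · exact absurd hab (e4 a ha b hb)
    · have h4 : s < k + 2 ∨ s = k + 2 ∨ s = k + 3 ∨ s = k + 4 := by omega
      rcases h4 with h4 | rfl | rfl | rfl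
      · exact absurd hab (e5 a (mem_LowF.2 ⟨s, h4, ha⟩) b hb)
      · exact absurd hab (e6 a ha b hb)
      · exact Or.inr ⟨rfl, rfl⟩
      · exact absurd hab (e7 a ha b hb)

theorem rep_le_six {k n : ℕ} (h2 : n < 2 * M g (k + 4) + M g (k + 3)) (hE : ¬ Exc g D k n) :
    rep (A g D) n ≤ 6 := by
  classical
  obtain ⟨c, hc1, hc2⟩ := T.odd_pair (k + 2) n
  obtain ⟨c', hc1', hc2'⟩ := T.odd_pair (k + 3) n
  let F : Finset (ℕ × ℕ) := {(c, n - c), (n - c, c), (c + M g (k + 3), n - (c + M g (k + 3))),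
    (n - (c + M g (k + 3)), c + M g (k + 3)), (c', n - c'), (n - c', c')}
  have hF : F.card ≤ 6 := card_le_six
  refine le_trans (rep_le_card F ?_) hF
  have key : ∀ s u a b, a ∈ Lev g D s → b ∈ Lev g D u → s ≤ u → a + b = n →
      a = c ∨ a = c + M g (k + 3) ∨ a = c' := by
    intro s u a b ha hb hsu hab
    rcases T.classify ha hb hsu hab h2 hE with ⟨rfl, rfl⟩ | ⟨rfl, rfl⟩
    · rcases hc2 0 a b ha hb hab with h | h
      · exact Or.inl h
      · exact Or.inr (Or.inl h)
    · rcases hc2' 0 a b ha hb hab with h | h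
      · exact Or.inr (Or.inr h)
      · exfalso
        have h3 := T.Lev_ge hb
        have e : k + 3 + 1 = k + 4 := rfl
        rw [e] at h
        omega
  rintro a ⟨s, ha⟩ b ⟨u, hb⟩ hab
  simp only [F, mem_insert, mem_singleton, Prod.mk.injEq]
  rcases le_total s u with h | h
  · rcases key s u a b ha hb h hab with h3 | h3 | h3
    · left
      exact ⟨h3, by omega⟩
    · right; right; left
      exact ⟨h3, by omega⟩
    · right; right; right; right; left
      exact ⟨h3, by omega⟩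
  · rcases key u s b a hb ha h (by omega) with h3 | h3 | h3
    · right; left
      exact ⟨by omega, h3⟩
    · right; right; right; left
      exact ⟨by omega, h3⟩
    · right; right; right; right; right
      exact ⟨by omega, h3⟩

section counting

open scoped Classical

/-- exceptions in one block -/
theorem block (k x : ℕ) (hx : 2 * M g (k + 3) ≤ x) (N : Finset ℕ)
    (hN : ∀ n ∈ N, n ≤ x ∧ 2 * M g (k + 3) ≤ n ∧ n < 2 * M g (k + 4) + M g (k + 3) ∧
      7 ≤ rep (A g D) n) : N.card * g (k + 1) ≤ 24 * x := by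
  have hNE : ∀ n ∈ N, Exc g D k n := by
    intro n hn
    obtain ⟨_, _, h3, h4⟩ := hN n hn
    by_contra hcon
    have := T.rep_le_six h3 hcon
    omega
  let N1 := N.filter (fun n => n < 2 * M g (k + 3) + 4 * M g (k + 2))
  let N2 := N.filter (fun n => ∃ a ∈ LowF g D (k + 1), ∃ b ∈ Lev g D (k + 3), a + b = n)
  let N3 := N.filter (fun n => ∃ a ∈ Lev g D (k + 1), ∃ b ∈ Lev g D (k + 3), a + b = n)
  let N4 := N.filter (fun n => ∃ a ∈ Lev g D (k + 3), ∃ b ∈ Lev g D (k + 3), a + b = n)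
  let N5 := N.filter (fun n => ∃ a ∈ LowF g D (k + 2), ∃ b ∈ Lev g D (k + 4), a + b = n)
  let N6 := N.filter (fun n => ∃ a ∈ Lev g D (k + 2), ∃ b ∈ Lev g D (k + 4), a + b = n)
  let N7 := N.filter (fun n => ∃ a ∈ Lev g D (k + 4), ∃ b ∈ Lev g D (k + 4), a + b = n)
  let N8 := N.filter (fun n => ∃ a ∈ Lev g D (k + 2), ∃ b ∈ Lev g D (k + 2), a + b = n)
  have hsub : N ⊆ N1 ∪ (N2 ∪ (N3 ∪ (N4 ∪ (N5 ∪ (N6 ∪ (N7 ∪ N8)))))) := by
    intro n hn
    have h := hNE n hn
    unfold Exc at h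
    simp only [N1, N2, N3, N4, N5, N6, N7, N8, mem_union, mem_filter, hn, true_and]
    exact h
  have hcard : N.card ≤ N1.card + (N2.card + (N3.card + (N4.card + (N5.card + (N6.card +
      (N7.card + N8.card)))))) := by
    refine (card_le_card hsub).trans ?_
    refine (card_union_le _ _).trans (Nat.add_le_add_left ?_ _)
    refine (card_union_le _ _).trans (Nat.add_le_add_left ?_ _)
    refine (card_union_le _ _).trans (Nat.add_le_add_left ?_ _)
    refine (card_union_le _ _).trans (Nat.add_le_add_left ?_ _)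
    refine (card_union_le _ _).trans (Nat.add_le_add_left ?_ _)
    refine (card_union_le _ _).trans (Nat.add_le_add_left ?_ _)
    exact card_union_le _ _
  have hle : ∀ n ∈ N, n ≤ x := fun n hn => (hN n hn).1
  have g12 : g (k + 1) ≤ g (k + 2) := T.adm.gm (k + 1)
  have g23 : g (k + 2) ≤ g (k + 3) := T.adm.gm (k + 2)
  have b1 : N1.card * g (k + 1) ≤ 2 * x := by
    have h1 : N1.card ≤ 4 * M g (k + 2) := by
      calc N1.card ≤ (Ico (2 * M g (k + 3)) (2 * M g (k + 3) + 4 * M g (k + 2))).card := by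
            apply card_le_card
            intro n hn
            rw [mem_filter] at hn
            exact mem_Ico.2 ⟨(hN n hn.1).2.1, hn.2⟩
        _ = 4 * M g (k + 2) := by simp
    calc N1.card * g (k + 1) ≤ (4 * M g (k + 2)) * g (k + 2) := Nat.mul_le_mul h1 g12
      _ = 2 * (2 * M g (k + 3)) := by
          show _ = 2 * (2 * (M g (k + 2) * g (k + 2)))
          ring
      _ ≤ 2 * x := Nat.mul_le_mul_left _ hx
  have b2 : N2.card * g (k + 1) ≤ 5 * x := by
    refine (Nat.mul_le_mul_left _ g12).trans (T.L5 (k + 1) x N2 ?_)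
    intro n hn
    rw [mem_filter] at hn
    exact ⟨hle n hn.1, hn.2⟩
  have b3 : N3.card * g (k + 1) ≤ 3 * x := by
    refine (Nat.mul_le_mul_left _ g12).trans (T.L4 (k + 1) x N3 ?_)
    intro n hn
    rw [mem_filter] at hn
    exact ⟨hle n hn.1, hn.2⟩
  have b4 : N4.card * g (k + 1) ≤ 2 * x := by
    refine (Nat.mul_le_mul_left _ g12).trans (T.L3 (k + 1) x N4 ?_)
    intro n hn
    rw [mem_filter] at hn
    exact ⟨hle n hn.1, hn.2⟩
  have b5 : N5.card * g (k + 1) ≤ 5 * x := by
    refine (Nat.mul_le_mul_left _ (g12.trans g23)).trans (T.L5 (k + 2) x N5 ?_)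
    intro n hn
    rw [mem_filter] at hn
    exact ⟨hle n hn.1, hn.2⟩
  have b6 : N6.card * g (k + 1) ≤ 3 * x := by
    refine (Nat.mul_le_mul_left _ (g12.trans g23)).trans (T.L4 (k + 2) x N6 ?_)
    intro n hn
    rw [mem_filter] at hn
    exact ⟨hle n hn.1, hn.2⟩
  have b7 : N7.card * g (k + 1) ≤ 2 * x := by
    refine (Nat.mul_le_mul_left _ (g12.trans g23)).trans (T.L3 (k + 2) x N7 ?_)
    intro n hn
    rw [mem_filter] at hn
    exact ⟨hle n hn.1, hn.2⟩
  have b8 : N8.card * g (k + 1) ≤ 2 * x := by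
    refine T.L3 k x N8 ?_
    intro n hn
    rw [mem_filter] at hn
    exact ⟨hle n hn.1, hn.2⟩
  calc N.card * g (k + 1) ≤ (N1.card + (N2.card + (N3.card + (N4.card + (N5.card + (N6.card +
      (N7.card + N8.card))))))) * g (k + 1) := Nat.mul_le_mul_right _ hcard
    _ = N1.card * g (k + 1) + (N2.card * g (k + 1) + (N3.card * g (k + 1) +
        (N4.card * g (k + 1) + (N5.card * g (k + 1) + (N6.card * g (k + 1) +
        (N7.card * g (k + 1) + N8.card * g (k + 1))))))) := by ring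
    _ ≤ 24 * x := by omega

/-- the exceptional set up to `x` -/
noncomputable def E (g : ℕ → ℕ) (D : ℕ → Finset ℕ) (x : ℕ) : Finset ℕ :=
  (Icc 1 x).filter (fun n => 7 ≤ rep (A g D) n)

theorem E_card_le (x : ℕ) : (E g D x).card ≤ x := by
  refine (card_filter_le _ _).trans ?_
  simp

/-- exceptions up to the end of stage `k + 3` -/
theorem total (k : ℕ) :
    (E g D (2 * M g (k + 4) + M g (k + 3))).card * g (k + 1) ≤ (96 + 3 * g 1) * M g (k + 4) := by
  induction k with
  | zero =>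
    have h1 := T.E_card_le (2 * M g 4 + M g 3)
    have h2 := T.adm.M_mono (show 3 ≤ 4 by norm_num)
    calc (E g D (2 * M g (0 + 4) + M g (0 + 3))).card * g (0 + 1)
        ≤ (3 * M g 4) * g 1 := Nat.mul_le_mul_right _ (by simpa using h1.trans (by omega))
      _ ≤ (96 + 3 * g 1) * M g (0 + 4) := by
          show (3 * M g 4) * g 1 ≤ (96 + 3 * g 1) * M g 4
          nlinarith
  | succ k ih =>
    set C := 96 + 3 * g 1 with hC
    let X := 2 * M g (k + 5) + M g (k + 4)
    let Y := 2 * M g (k + 4) + M g (k + 3)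
    show (E g D X).card * g (k + 2) ≤ C * M g (k + 5)
    have hstep : 8 * M g (k + 4) ≤ M g (k + 5) := T.adm.M_step (k + 4)
    have hstep3 : 8 * M g (k + 3) ≤ M g (k + 4) := T.adm.M_step (k + 3)
    have hsub : E g D X ⊆ E g D Y ∪ ((E g D X).filter (fun n => Y ≤ n ∧ n < X) ∪ {X}) := by
      intro n hn
      have hn' := hn
      rw [E, mem_filter, mem_Icc] at hn'
      simp only [mem_union, mem_filter, mem_singleton, hn, true_and]
      rcases Nat.lt_or_ge n Y with h | h
      · left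
        rw [E, mem_filter, mem_Icc]
        exact ⟨⟨hn'.1.1, h.le⟩, hn'.2⟩
      · right
        rcases Nat.lt_or_ge n X with h3 | h3
        · left
          exact ⟨h, h3⟩
        · right
          exact le_antisymm hn'.1.2 h3
    have hc : (E g D X).card ≤ (E g D Y).card +
        (((E g D X).filter (fun n => Y ≤ n ∧ n < X)).card + 1) := by
      refine (card_le_card hsub).trans ?_
      refine (card_union_le _ _).trans (Nat.add_le_add_left ?_ _)
      refine (card_union_le _ _).trans ?_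
      rw [card_singleton]
    have hb := T.block (k + 1) X (by
      show 2 * M g (k + 4) ≤ 2 * M g (k + 5) + M g (k + 4)
      omega) ((E g D X).filter (fun n => Y ≤ n ∧ n < X)) (by
      intro n hn
      rw [mem_filter, E, mem_filter, mem_Icc] at hn
      refine ⟨hn.1.1.2, ?_, ?_, hn.1.2⟩
      · have := hn.2.1
        show 2 * M g (k + 4) ≤ n
        omega
      · exact hn.2.2)
    have hb' : ((E g D X).filter (fun n => Y ≤ n ∧ n < X)).card * g (k + 2) ≤ 24 * X := hb
    have hX : X ≤ 3 * M g (k + 5) := by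
      show 2 * M g (k + 5) + M g (k + 4) ≤ _
      omega
    -- the first part
    have h8 : (E g D Y).card * g (k + 2) * 8 ≤ C * M g (k + 5) := by
      calc (E g D Y).card * g (k + 2) * 8 ≤ (E g D Y).card * g (k + 2) * g (k + 1) :=
            Nat.mul_le_mul_left _ (T.adm.g8 (k + 1))
        _ = ((E g D Y).card * g (k + 1)) * g (k + 2) := by ring
        _ ≤ (C * M g (k + 4)) * g (k + 4) :=
            Nat.mul_le_mul ih (T.adm.g_mono (by omega))
        _ = C * M g (k + 5) := by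
            show _ = C * (M g (k + 4) * g (k + 4))
            ring
    have hg2 : g (k + 2) ≤ M g (k + 5) := by
      have h1 : g (k + 2) ≤ g (k + 4) := T.adm.g_mono (by omega)
      have h2 := T.adm.M_pos (k + 4)
      show g (k + 2) ≤ M g (k + 4) * g (k + 4)
      nlinarith
    have hC96 : 96 * M g (k + 5) ≤ C * M g (k + 5) := Nat.mul_le_mul_right _ (by omega)
    have hfin : (E g D X).card * g (k + 2) ≤ (E g D Y).card * g (k + 2) +
        (((E g D X).filter (fun n => Y ≤ n ∧ n < X)).card * g (k + 2) + g (k + 2)) := by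
      refine (Nat.mul_le_mul_right _ hc).trans (le_of_eq ?_)
      ring
    omega

/-- exceptions up to `x` -/
theorem final (k x : ℕ) (h1 : 2 * M g (k + 4) + M g (k + 3) ≤ x)
    (h2 : x < 2 * M g (k + 5) + M g (k + 4)) :
    (E g D x).card * g (k + 1) ≤ (72 + 2 * g 1) * x := by
  set Y := 2 * M g (k + 4) + M g (k + 3) with hY
  have hsub : E g D x ⊆ E g D Y ∪ ((E g D x).filter (fun n => Y ≤ n)) := by
    intro n hn
    have hn' := hn
    rw [E, mem_filter, mem_Icc] at hn'
    simp only [mem_union, mem_filter, hn, true_and]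
    rcases Nat.lt_or_ge n Y with h | h
    · left
      rw [E, mem_filter, mem_Icc]
      exact ⟨⟨hn'.1.1, h.le⟩, hn'.2⟩
    · right
      exact h
  have hc := (card_le_card hsub).trans (card_union_le _ _)
  have hb := T.block (k + 1) x (by
    show 2 * M g (k + 4) ≤ x
    omega) ((E g D x).filter (fun n => Y ≤ n)) (by
    intro n hn
    rw [mem_filter, E, mem_filter, mem_Icc] at hn
    refine ⟨hn.1.1.2, ?_, ?_, hn.1.2⟩
    · have := hn.2
      show 2 * M g (k + 4) ≤ n
      omega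
    · exact lt_of_le_of_lt hn.1.1.2 h2)
  have hb' : ((E g D x).filter (fun n => Y ≤ n)).card * g (k + 1) ≤ 24 * x :=
    (Nat.mul_le_mul_left _ (T.adm.gm (k + 1))).trans hb
  have ht := T.total k
  rw [← hY] at ht
  have hx2 : 2 * M g (k + 4) ≤ x := by omega
  have h3 : (E g D x).card * g (k + 1) ≤ (E g D Y).card * g (k + 1) +
      ((E g D x).filter (fun n => Y ≤ n)).card * g (k + 1) := by
    refine (Nat.mul_le_mul_right _ hc).trans (le_of_eq ?_)
    ring
  have h4 : 2 * ((96 + 3 * g 1) * M g (k + 4)) ≤ (96 + 3 * g 1) * x := by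
    calc 2 * ((96 + 3 * g 1) * M g (k + 4)) = (96 + 3 * g 1) * (2 * M g (k + 4)) := by ring
      _ ≤ _ := Nat.mul_le_mul_left _ hx2
  have h5 : (96 + 3 * g 1) * x = 96 * x + 3 * (g 1 * x) := by ring
  have h6 : (72 + 2 * g 1) * x = 72 * x + 2 * (g 1 * x) := by ring
  omega

end counting

end Tow

end Pool.Agent.H53.ET
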