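import Mathlib
import Pool.Agent.H53.ET.Exc
/-!
# Radices which are functions of the modulus
-/

set_option autoImplicit false
set_option linter.unusedSectionVars false

open Finset

namespace Pool.Agent.H53.ET

/-- moduli from a radix function -/
def Mf (f : ℕ → ℕ) : ℕ → ℕ
  | 0 => 1
  | t + 1 => Mf f t * f (Mf f t)

theorem M_eq (f : ℕ → ℕ) (t : ℕ) : M (fun t => f (Mf f t)) t = Mf f t := by
  induction t with
  | zero => rfl
  | succ t ih =>
    show M _ t * f (Mf f t) = Mf f t * f (Mf f t)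
    rw [ih]

theorem adm_of (f : ℕ → ℕ) (h8 : ∀ y, 8 ≤ f y) (hm : Monotone f) :
    Adm (fun t => f (Mf f t)) where
  g8 t := h8 _
  gm t := hm (by
    show Mf f t ≤ Mf f t * f (Mf f t)
    have := h8 (Mf f t)
    exact Nat.le_mul_of_pos_right _ (by omega))

namespace Tow

variable {g : ℕ → ℕ} {D : ℕ → Finset ℕ} {v : ℕ → ℕ → ℕ} (T : Tow g D v)

include T

theorem exists_index (k₀ n : ℕ) (hn : 2 * M g (k₀ + 1) + M g k₀ ≤ n) :
    ∃ k, 2 * M g (k₀ + k + 1) + M g (k₀ + k) ≤ n ∧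
      n < 2 * M g (k₀ + k + 2) + M g (k₀ + k + 1) := by
  classical
  have hex : ∃ k, n < 2 * M g (k₀ + k + 2) + M g (k₀ + k + 1) := by
    refine ⟨n, ?_⟩
    have h1 := T.adm.M_ge (k₀ + n + 2)
    have h2 : k₀ + n + 2 < 8 ^ (k₀ + n + 2) := Nat.lt_pow_self (by norm_num)
    omega
  have h1 := Nat.find_spec hex
  set k := Nat.find hex with hk
  refine ⟨k, ?_, h1⟩
  rcases Nat.eq_zero_or_pos k with h | h
  · rw [h]
    exact hn
  · have h2 := Nat.find_min hex (m := k - 1) (by omega)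
    have e1 : k₀ + (k - 1) + 2 = k₀ + k + 1 := by omega
    have e2 : k₀ + (k - 1) + 1 = k₀ + k := by omega
    rw [e1, e2] at h2
    omega

theorem rep_pos (n : ℕ) (hn : 2 * M g 1 + M g 0 ≤ n) : 1 ≤ rep (A g D) n := by
  obtain ⟨k, h1, h2⟩ := T.exists_index 0 n hn
  simp only [zero_add] at h1 h2
  obtain ⟨a, ha, b, hb, hab⟩ := T.cover k n h1 h2
  exact rep_pos_of ⟨k, ha⟩ ⟨k + 1, hb⟩ hab

theorem exists_level (n : ℕ) (hn : 1 ≤ n) : ∃ J, M g J ≤ n ∧ n < M g (J + 1) := by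
  classical
  have hex : ∃ k, n < M g (k + 1) := by
    refine ⟨n, ?_⟩
    have h1 := T.adm.M_ge (n + 1)
    have h2 : n + 1 < 8 ^ (n + 1) := Nat.lt_pow_self (by norm_num)
    omega
  have h1 := Nat.find_spec hex
  set k := Nat.find hex with hk
  refine ⟨k, ?_, h1⟩
  rcases Nat.eq_zero_or_pos k with h | h
  · rw [h]
    exact hn
  · have h2 := Nat.find_min hex (m := k - 1) (by omega)
    rw [Nat.sub_add_cancel h] at h2
    omega

theorem rep_log (n : ℕ) (hn : 2 ≤ n) : ∃ J, M g J ≤ n ∧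
    (rep (A g D) n : ℝ) ≤ 192 * Real.log n ^ 3 * (g J : ℝ) ^ 2 := by
  obtain ⟨J, h1, h2⟩ := T.exists_level n (by omega)
  refine ⟨J, h1, ?_⟩
  have h3 := T.rep_le' J n h1 h2
  have hlog2 : (0.69 : ℝ) < Real.log 2 := by have := Real.log_two_gt_d9; linarith
  have hln : Real.log 2 ≤ Real.log n := Real.log_le_log (by norm_num) (by exact_mod_cast hn)
  have h4 : (J : ℝ) ≤ Real.log n / 2 := by
    have h5 : (8 : ℝ) ^ J ≤ n := by exact_mod_cast (T.adm.M_ge J).trans h1
    have h6 := Real.log_le_log (by positivity) h5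
    rw [Real.log_pow] at h6
    have h7 : Real.log 8 = 3 * Real.log 2 := by
      have : (8 : ℝ) = 2 ^ 3 := by norm_num
      rw [this, Real.log_pow]
      norm_num
    rw [h7] at h6
    have h8 : (0 : ℝ) ≤ J := Nat.cast_nonneg J
    nlinarith
  have h5 : (J : ℝ) + 1 ≤ 2 * Real.log n := by linarith
  have h6 : Real.log n + J + 1 ≤ 3 * Real.log n := by linarith
  have h7 : (0 : ℝ) ≤ J := Nat.cast_nonneg J
  have h8 : 0 < Real.log n := by linarith
  refine h3.trans ?_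
  calc 16 * ((J : ℝ) + 1) ^ 2 * (g J : ℝ) ^ 2 * (Real.log n + J + 1)
      ≤ 16 * (2 * Real.log n) ^ 2 * (g J : ℝ) ^ 2 * (3 * Real.log n) := by gcongr
    _ = 192 * Real.log n ^ 3 * (g J : ℝ) ^ 2 := by ring

end Tow

open scoped Classical in
/-- the construction for a general radix function -/
theorem general (f : ℕ → ℕ) (h8 : ∀ y, 8 ≤ f y) (hm : Monotone f) :
    ∃ B : Set ℕ, (∃ n₀, ∀ n ≥ n₀, 1 ≤ rep B n) ∧
      (∀ n : ℕ, 2 ≤ n → (rep B n : ℝ) ≤ 192 * Real.log n ^ 3 * (f n : ℝ) ^ 2) ∧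
      ∃ X C : ℕ, ∀ x : ℕ, X ≤ x → ∃ m : ℕ, 1 ≤ m ∧
        x ≤ 3 * (m * f m * f (m * f m) * f (m * f m * f (m * f m)) *
          f (m * f m * f (m * f m) * f (m * f m * f (m * f m)))) ∧
        ((Icc 1 x).filter (fun n => 7 ≤ rep B n)).card * f m ≤ C * x := by
  obtain ⟨D, v, T⟩ := (adm_of f h8 hm).tower
  set g : ℕ → ℕ := fun t => f (Mf f t) with hg
  have hM : ∀ t, M g t = Mf f t := M_eq f
  refine ⟨A g D, ⟨2 * M g 1 + M g 0, fun n hn => T.rep_pos n hn⟩, ?_, ?_⟩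
  · intro n hn
    obtain ⟨J, h1, h2⟩ := T.rep_log n hn
    refine h2.trans ?_
    have h3 : (g J : ℝ) ≤ f n := by
      rw [hM] at h1
      exact_mod_cast hm h1
    have h4 : 0 ≤ Real.log n := Real.log_nonneg (by exact_mod_cast (by omega : 1 ≤ n))
    gcongr
  · refine ⟨2 * M g 4 + M g 3, 72 + 2 * g 1, ?_⟩
    intro x hx
    obtain ⟨k, h1, h2⟩ := T.exists_index 3 x hx
    have e1 : 3 + k + 1 = k + 4 := by ring
    have e2 : 3 + k = k + 3 := by ring
    have e3 : 3 + k + 2 = k + 5 := by ring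
    rw [e1, e2] at h1
    rw [e1, e3] at h2
    refine ⟨M g (k + 1), T.adm.M_pos _, ?_, ?_⟩
    · have hgM : ∀ t, f (M g t) = g t := by
        intro t
        rw [hM]
      have hs : ∀ t, M g t * f (M g t) = M g (t + 1) := by
        intro t
        rw [hgM]
        rfl
      have h5 : M g (k + 1) * f (M g (k + 1)) = M g (k + 2) := hs (k + 1)
      have h6 : M g (k + 2) * f (M g (k + 2)) = M g (k + 3) := hs (k + 2)
      have h7 : M g (k + 3) * f (M g (k + 3)) = M g (k + 4) := hs (k + 3)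
      have h8 : M g (k + 4) * f (M g (k + 4)) = M g (k + 5) := hs (k + 4)
      rw [h5, h6, h7, h8]
      have h9 : M g (k + 4) ≤ M g (k + 5) := T.adm.M_mono (by omega)
      omega
    · have h3 := T.final k x h1 h2
      have h4 : f (M g (k + 1)) = g (k + 1) := by
        rw [hM]
      rw [h4]
      unfold Tow.E at h3
      convert h3

end Pool.Agent.H53.ET
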