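import Mathlib
import Pool.Agent.H53.ET.Num
/-!
# The two special cases: powers of the logarithm and powers
-/

set_option autoImplicit false

open Finset

namespace Pool.Agent.H53.ET

theorem L_step (D m : ℕ) (hm : 1 ≤ m) :
    Nat.log 2 (m * (8 * (Nat.log 2 m + 1) ^ D)) + 1 ≤ (D + 4) * (Nat.log 2 m + 1) := by
  set L := Nat.log 2 m + 1 with hL
  have h1 : m < 2 ^ L := Nat.lt_pow_succ_log_self (by norm_num) m
  have h2 : L < 2 ^ L := Nat.lt_two_pow_self
  have h3 : 8 * L ^ D ≤ 8 * (2 ^ L) ^ D := Nat.mul_le_mul_left _ (Nat.pow_le_pow_left h2.le D)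
  have h4 : m * (8 * L ^ D) < 2 ^ (L + 3 + L * D) := by
    have h5 : 0 < 8 * (2 ^ L) ^ D := by positivity
    calc m * (8 * L ^ D) ≤ m * (8 * (2 ^ L) ^ D) := Nat.mul_le_mul_left _ h3
      _ < 2 ^ L * (8 * (2 ^ L) ^ D) := Nat.mul_lt_mul_of_pos_right h1 h5
      _ = 2 ^ (L + 3 + L * D) := by
          rw [← pow_mul, pow_add, pow_add]
          norm_num
          ring
  have hL1 : 1 ≤ L := by omega
  have h5 : m * (8 * L ^ D) ≠ 0 := by positivity
  have h6 := Nat.log_lt_of_lt_pow h5 h4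
  have h7 : L + 3 + L * D ≤ (D + 4) * L := by nlinarith
  omega

theorem log_bound (D m x : ℕ) (hm : 1 ≤ m) (hx1 : 1 ≤ x)
    (f : ℕ → ℕ) (hf : f = fun y => 8 * (Nat.log 2 y + 1) ^ D)
    (hx : x ≤ 3 * (m * f m * f (m * f m) * f (m * f m * f (m * f m)) *
          f (m * f m * f (m * f m) * f (m * f m * f (m * f m))))) :
    Real.log x ≤ 3 * (D + 4) ^ 4 * ((Nat.log 2 m + 1 : ℕ) : ℝ) := by
  have hf8 : ∀ y, 8 ≤ f y := by
    intro y
    rw [hf]
    have : 1 ≤ (Nat.log 2 y + 1) ^ D := Nat.one_le_pow _ _ (by omega)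
    simp only
    omega
  have step : ∀ y, 1 ≤ y → 1 ≤ y * f y ∧ Nat.log 2 (y * f y) + 1 ≤ (D + 4) * (Nat.log 2 y + 1) := by
    intro y hy
    refine ⟨?_, ?_⟩
    · have := hf8 y
      nlinarith
    · have := L_step D y hy
      rw [hf]
      exact this
  set m1 := m * f m with hm1
  set m2 := m1 * f m1 with hm2
  set m3 := m2 * f m2 with hm3
  set m4 := m3 * f m3 with hm4
  obtain ⟨p1, q1⟩ := step m hm
  obtain ⟨p2, q2⟩ := step m1 p1
  obtain ⟨p3, q3⟩ := step m2 p2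
  obtain ⟨p4, q4⟩ := step m3 p3
  rw [← hm1] at q1
  rw [← hm2] at q2
  rw [← hm3] at q3
  rw [← hm4] at q4
  have hc : Nat.log 2 m4 + 1 ≤ (D + 4) ^ 4 * (Nat.log 2 m + 1) := by
    calc Nat.log 2 m4 + 1 ≤ (D + 4) * (Nat.log 2 m3 + 1) := q4
      _ ≤ (D + 4) * ((D + 4) * (Nat.log 2 m2 + 1)) := Nat.mul_le_mul_left _ q3
      _ ≤ (D + 4) * ((D + 4) * ((D + 4) * (Nat.log 2 m1 + 1))) :=
          Nat.mul_le_mul_left _ (Nat.mul_le_mul_left _ q2)
      _ ≤ (D + 4) * ((D + 4) * ((D + 4) * ((D + 4) * (Nat.log 2 m + 1)))) :=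
          Nat.mul_le_mul_left _ (Nat.mul_le_mul_left _ (Nat.mul_le_mul_left _ q1))
      _ = _ := by ring
  have h1 : x ≤ 2 ^ (2 + (Nat.log 2 m4 + 1)) := by
    have h2 : m4 < 2 ^ (Nat.log 2 m4 + 1) := Nat.lt_pow_succ_log_self (by norm_num) m4
    rw [pow_add]
    omega
  have h2 : (x : ℝ) ≤ 2 ^ (2 + (Nat.log 2 m4 + 1)) := by exact_mod_cast h1
  have hx0 : (0 : ℝ) < x := by exact_mod_cast hx1
  have h3 := Real.log_le_log hx0 h2
  rw [Real.log_pow] at h3
  have h4 : Real.log 2 ≤ 1 := by have := Real.log_two_lt_d9; linarith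
  have h4' : 0 < Real.log 2 := Real.log_pos (by norm_num)
  have h5 : ((Nat.log 2 m4 + 1 : ℕ) : ℝ) ≤ (D + 4) ^ 4 * ((Nat.log 2 m + 1 : ℕ) : ℝ) := by
    exact_mod_cast hc
  have h6 : (1 : ℝ) ≤ ((Nat.log 2 m4 + 1 : ℕ) : ℝ) := by exact_mod_cast (by omega)
  calc Real.log x ≤ ((2 + (Nat.log 2 m4 + 1) : ℕ) : ℝ) * Real.log 2 := h3
    _ ≤ ((2 + (Nat.log 2 m4 + 1) : ℕ) : ℝ) * 1 := by gcongr
    _ = 2 + ((Nat.log 2 m4 + 1 : ℕ) : ℝ) := by push_cast; ring
    _ ≤ 3 * ((Nat.log 2 m4 + 1 : ℕ) : ℝ) := by linarith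
    _ ≤ 3 * ((D + 4) ^ 4 * ((Nat.log 2 m + 1 : ℕ) : ℝ)) := by gcongr
    _ = _ := by ring

theorem natlog_le (n : ℕ) (hn : 2 ≤ n) : ((Nat.log 2 n + 1 : ℕ) : ℝ) ≤ 3 * Real.log n := by
  have hlog2 : (0.69 : ℝ) < Real.log 2 := by have := Real.log_two_gt_d9; linarith
  have hln : Real.log 2 ≤ Real.log n := Real.log_le_log (by norm_num) (by exact_mod_cast hn)
  have h5 : (2 : ℝ) ^ Nat.log 2 n ≤ n := by
    exact_mod_cast Nat.pow_log_le_self 2 (by omega : n ≠ 0)
  have h6 := Real.log_le_log (by positivity) h5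
  rw [Real.log_pow] at h6
  have h8 : (0 : ℝ) ≤ Nat.log 2 n := Nat.cast_nonneg _
  push_cast
  nlinarith

open scoped Classical in
/-- powers of the logarithm -/
theorem polylog (D : ℕ) : ∃ (B : Set ℕ) (C : ℝ), (∃ n₀, ∀ n ≥ n₀, 1 ≤ rep B n) ∧
    (∀ n : ℕ, 2 ≤ n → (rep B n : ℝ) ≤ C * Real.log n ^ (2 * D + 3)) ∧
    ∀ x : ℕ, 2 ≤ x → (((Icc 1 x).filter (fun n => 7 ≤ rep B n)).card : ℝ) ≤
      C * x / Real.log x ^ D := by
  set f : ℕ → ℕ := fun y => 8 * (Nat.log 2 y + 1) ^ D with hf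
  have h8 : ∀ y, 8 ≤ f y := by
    intro y
    have : 1 ≤ (Nat.log 2 y + 1) ^ D := Nat.one_le_pow _ _ (by omega)
    simp only [hf]
    omega
  have hmono : Monotone f := by
    intro y z hyz
    simp only [hf]
    apply Nat.mul_le_mul_left
    apply Nat.pow_le_pow_left
    have := Nat.log_mono_right (b := 2) hyz
    omega
  obtain ⟨B, hB1, hB2, X, C, hB3⟩ := general f h8 hmono
  set K : ℝ := (3 * ((D : ℝ) + 4) ^ 4) ^ D with hK
  have hK0 : 0 < K := by positivity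
  have hlX : 0 ≤ Real.log X := Real.log_natCast_nonneg X
  refine ⟨B, 192 * 64 * 9 ^ D + (K * C + Real.log X ^ D), hB1, ?_, ?_⟩
  · intro n hn
    have h1 := hB2 n hn
    have h2 := natlog_le n hn
    have h0 : 0 < Real.log n := Real.log_pos (by exact_mod_cast (by omega : 1 < n))
    have h3 : (f n : ℝ) = 8 * ((Nat.log 2 n + 1 : ℕ) : ℝ) ^ D := by
      simp only [hf]
      push_cast
      ring
    have h4 : (f n : ℝ) ≤ 8 * (3 * Real.log n) ^ D := by
      rw [h3]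
      gcongr
    have h5 : (rep B n : ℝ) ≤ (192 * 64 * 9 ^ D) * Real.log n ^ (2 * D + 3) := by
      refine h1.trans ?_
      calc 192 * Real.log n ^ 3 * (f n : ℝ) ^ 2
          ≤ 192 * Real.log n ^ 3 * (8 * (3 * Real.log n) ^ D) ^ 2 := by gcongr
        _ = (192 * 64 * 9 ^ D) * Real.log n ^ (2 * D + 3) := by
            have e1 : (9 : ℝ) ^ D = (3 ^ D) ^ 2 := by
              rw [← pow_mul, mul_comm D 2, pow_mul]
              norm_num
            have e2 : Real.log n ^ (2 * D) = (Real.log n ^ D) ^ 2 := by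
              rw [← pow_mul, mul_comm 2 D]
            rw [mul_pow 3 (Real.log n) D, pow_add, e1, e2]
            ring
    refine h5.trans ?_
    have h6 : 0 ≤ K * C + Real.log X ^ D := by positivity
    have h7 : 0 < Real.log n ^ (2 * D + 3) := by positivity
    nlinarith
  · intro x hx
    have h0 : 0 < Real.log x := Real.log_pos (by exact_mod_cast (by omega : 1 < x))
    have h0' : 0 < Real.log x ^ D := by positivity
    rw [le_div_iff₀ h0']
    have hx0 : (0 : ℝ) ≤ x := Nat.cast_nonneg x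
    set e : ℝ := (((Icc 1 x).filter (fun n => 7 ≤ rep B n)).card : ℝ) with he
    have he0 : 0 ≤ e := Nat.cast_nonneg _
    have h9 : (0 : ℝ) ≤ 192 * 64 * 9 ^ D := by positivity
    rcases Nat.lt_or_ge x X with h | h
    · have h1 : e ≤ x := by
        have : ((Icc 1 x).filter (fun n => 7 ≤ rep B n)).card ≤ x := by
          refine (card_filter_le _ _).trans ?_
          simp
        rw [he]
        exact_mod_cast this
      have h2 : Real.log x ^ D ≤ Real.log X ^ D := by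
        have h3 : (0 : ℝ) < x := by exact_mod_cast (by omega : 0 < x)
        have h4 : Real.log x ≤ Real.log X := Real.log_le_log h3 (by exact_mod_cast h.le)
        gcongr
      have h3 : e * Real.log x ^ D ≤ x * Real.log X ^ D := mul_le_mul h1 h2 h0'.le hx0
      have h4 : 0 ≤ (192 * 64 * 9 ^ D + K * C) * x := by positivity
      nlinarith
    · obtain ⟨m, hm1, hm2, hm3⟩ := hB3 x h
      have h1 := log_bound D m x hm1 (by omega) f hf hm2
      have h2 : Real.log x ^ D ≤ K * (f m : ℝ) := by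
        calc Real.log x ^ D ≤ (3 * (D + 4) ^ 4 * ((Nat.log 2 m + 1 : ℕ) : ℝ)) ^ D := by gcongr
          _ = K * ((Nat.log 2 m + 1 : ℕ) : ℝ) ^ D := by rw [mul_pow]
          _ ≤ K * (f m : ℝ) := by
              apply mul_le_mul_of_nonneg_left _ hK0.le
              simp only [hf]
              push_cast
              have : (0 : ℝ) ≤ ((Nat.log 2 m : ℝ) + 1) ^ D := by positivity
              linarith
      have h3 : e * (f m : ℝ) ≤ C * x := by
        rw [he]
        exact_mod_cast hm3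
      have h4 : e * Real.log x ^ D ≤ K * (C * x) := by
        calc e * Real.log x ^ D ≤ e * (K * (f m : ℝ)) := by gcongr
          _ = K * (e * f m) := by ring
          _ ≤ K * (C * x) := by gcongr
      have h5 : 0 ≤ (192 * 64 * 9 ^ D + Real.log X ^ D) * x := by positivity
      nlinarith

theorem pow_bound (η : ℝ) (hη : 0 < η) (m x : ℕ) (hm : 1 ≤ m)
    (f : ℕ → ℕ) (hf : f = fun y : ℕ => 8 * (⌊(y : ℝ) ^ η⌋₊ + 1))
    (hx : x ≤ 3 * (m * f m * f (m * f m) * f (m * f m * f (m * f m)) *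
          f (m * f m * f (m * f m) * f (m * f m * f (m * f m))))) :
    (x : ℝ) ^ (η / (1 + η) ^ 4) ≤
      (3 * (16 * (16 * (16 * (16 : ℝ) ^ (1 + η)) ^ (1 + η)) ^ (1 + η))) ^ (η / (1 + η) ^ 4) *
        (m : ℝ) ^ η := by
  have step : ∀ y : ℕ, 1 ≤ y → 1 ≤ y * f y ∧ ((y * f y : ℕ) : ℝ) ≤ 16 * (y : ℝ) ^ (1 + η) := by
    intro y hy
    have hy1 : (1 : ℝ) ≤ y := by exact_mod_cast hy
    have hy0 : (0 : ℝ) < y := by linarith
    refine ⟨?_, ?_⟩
    · rw [hf]
      simp only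
      exact Nat.mul_pos (by omega) (by omega)
    · rw [hf]
      push_cast
      have h1 : (⌊(y : ℝ) ^ η⌋₊ : ℝ) ≤ (y : ℝ) ^ η := Nat.floor_le (by positivity)
      have h2 : (1 : ℝ) ≤ (y : ℝ) ^ η := Real.one_le_rpow hy1 hη.le
      rw [Real.rpow_add hy0, Real.rpow_one]
      nlinarith
  have mono : ∀ y z : ℝ, 0 ≤ y → y ≤ z → 16 * y ^ (1 + η) ≤ 16 * z ^ (1 + η) := by
    intro y z hy hyz
    have := Real.rpow_le_rpow hy hyz (by linarith : 0 ≤ 1 + η)
    linarith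
  set m1 := m * f m with hm1
  set m2 := m1 * f m1 with hm2
  set m3 := m2 * f m2 with hm3
  set m4 := m3 * f m3 with hm4
  obtain ⟨p1, q1⟩ := step m hm
  obtain ⟨p2, q2⟩ := step m1 p1
  obtain ⟨p3, q3⟩ := step m2 p2
  obtain ⟨p4, q4⟩ := step m3 p3
  rw [← hm1] at q1
  rw [← hm2] at q2
  rw [← hm3] at q3
  rw [← hm4] at q4
  set a : ℝ := 1 + η with ha
  have ha0 : 0 < a := by linarith
  have hm0 : (0 : ℝ) < m := by exact_mod_cast hm
  have r2 := q2.trans (mono _ _ (Nat.cast_nonneg _) q1)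
  have r3 := q3.trans (mono _ _ (Nat.cast_nonneg _) r2)
  have r4 := q4.trans (mono _ _ (Nat.cast_nonneg _) r3)
  -- simplify the right hand side
  have e2 : 16 * (16 * (m : ℝ) ^ a) ^ a = (16 * 16 ^ a) * (m : ℝ) ^ (a ^ 2) := by
    rw [Real.mul_rpow (by norm_num) (by positivity), ← Real.rpow_mul hm0.le]
    have : a * a = a ^ 2 := by ring
    rw [this]
    ring
  have e3 : 16 * ((16 * 16 ^ a) * (m : ℝ) ^ (a ^ 2)) ^ a
      = (16 * (16 * 16 ^ a) ^ a) * (m : ℝ) ^ (a ^ 3) := by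
    rw [Real.mul_rpow (by positivity) (by positivity), ← Real.rpow_mul hm0.le]
    have : a ^ 2 * a = a ^ 3 := by ring
    rw [this]
    ring
  have e4 : 16 * ((16 * (16 * 16 ^ a) ^ a) * (m : ℝ) ^ (a ^ 3)) ^ a
      = (16 * (16 * (16 * 16 ^ a) ^ a) ^ a) * (m : ℝ) ^ (a ^ 4) := by
    rw [Real.mul_rpow (by positivity) (by positivity), ← Real.rpow_mul hm0.le]
    have : a ^ 3 * a = a ^ 4 := by ring
    rw [this]
    ring
  rw [e2, e3, e4] at r4
  have hx' : (x : ℝ) ≤ 3 * m4 := by exact_mod_cast hx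
  have h1 : (x : ℝ) ≤ (3 * (16 * (16 * (16 * (16 : ℝ) ^ a) ^ a) ^ a)) * (m : ℝ) ^ (a ^ 4) := by
    refine hx'.trans ?_
    linarith
  have h2 := Real.rpow_le_rpow (Nat.cast_nonneg x) h1 (by positivity : 0 ≤ η / a ^ 4)
  rw [Real.mul_rpow (by positivity) (by positivity), ← Real.rpow_mul hm0.le] at h2
  have h3 : a ^ 4 * (η / a ^ 4) = η := by
    field_simp
  rwa [h3] at h2

open scoped Classical in
/-- powers -/
theorem powers (η : ℝ) (hη : 0 < η) : ∃ (B : Set ℕ) (C : ℝ), (∃ n₀, ∀ n ≥ n₀, 1 ≤ rep B n) ∧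
    (∀ n : ℕ, 2 ≤ n → (rep B n : ℝ) ≤ C * Real.log n ^ 3 * (n : ℝ) ^ (2 * η)) ∧
    ∀ x : ℕ, 1 ≤ x → (((Icc 1 x).filter (fun n => 7 ≤ rep B n)).card : ℝ) ≤
      C * (x : ℝ) ^ (1 - η / (1 + η) ^ 4) := by
  set f : ℕ → ℕ := fun y : ℕ => 8 * (⌊(y : ℝ) ^ η⌋₊ + 1) with hf
  have h8 : ∀ y, 8 ≤ f y := by
    intro y
    simp only [hf]
    omega
  have hmono : Monotone f := by
    intro y z hyz
    simp only [hf]
    apply Nat.mul_le_mul_left
    apply Nat.add_le_add_right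
    apply Nat.floor_le_floor
    exact Real.rpow_le_rpow (Nat.cast_nonneg _) (by exact_mod_cast hyz) hη.le
  obtain ⟨B, hB1, hB2, X, C, hB3⟩ := general f h8 hmono
  set K : ℝ := (3 * (16 * (16 * (16 * (16 : ℝ) ^ (1 + η)) ^ (1 + η)) ^ (1 + η)))
    ^ (η / (1 + η) ^ 4) with hK
  have hK0 : 0 < K := by positivity
  refine ⟨B, 192 * 256 + (K * C + X), hB1, ?_, ?_⟩
  · intro n hn
    have h1 := hB2 n hn
    have hn1 : (1 : ℝ) ≤ n := by exact_mod_cast (by omega : 1 ≤ n)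
    have hn0 : (0 : ℝ) < n := by linarith
    have h0 : 0 < Real.log n := Real.log_pos (by exact_mod_cast (by omega : 1 < n))
    have h4 : (f n : ℝ) ≤ 16 * (n : ℝ) ^ η := by
      simp only [hf]
      push_cast
      have h1 : (⌊(n : ℝ) ^ η⌋₊ : ℝ) ≤ (n : ℝ) ^ η := Nat.floor_le (by positivity)
      have h2 : (1 : ℝ) ≤ (n : ℝ) ^ η := Real.one_le_rpow hn1 hη.le
      linarith
    have h5 : (rep B n : ℝ) ≤ (192 * 256) * (Real.log n ^ 3 * (n : ℝ) ^ (2 * η)) := by
      refine h1.trans ?_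
      calc 192 * Real.log n ^ 3 * (f n : ℝ) ^ 2
          ≤ 192 * Real.log n ^ 3 * (16 * (n : ℝ) ^ η) ^ 2 := by gcongr
        _ = (192 * 256) * (Real.log n ^ 3 * (n : ℝ) ^ (2 * η)) := by
            have : (n : ℝ) ^ (2 * η) = ((n : ℝ) ^ η) ^ 2 := by
              rw [two_mul, Real.rpow_add hn0]
              ring
            rw [this]
            ring
    refine h5.trans ?_
    have h6 : 0 ≤ K * C + X := by positivity
    have h7 : 0 < Real.log n ^ 3 * (n : ℝ) ^ (2 * η) := by positivity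
    nlinarith
  · intro x hx
    have hx1 : (1 : ℝ) ≤ x := by exact_mod_cast hx
    have hx0 : (0 : ℝ) < x := by linarith
    set e : ℝ := (((Icc 1 x).filter (fun n => 7 ≤ rep B n)).card : ℝ) with he
    have he0 : 0 ≤ e := Nat.cast_nonneg _
    have hexp : η / (1 + η) ^ 4 ≤ 1 := by
      rw [div_le_one (by positivity)]
      nlinarith [sq_nonneg η, sq_nonneg (η ^ 2), pow_pos hη 2, pow_pos hη 3, pow_pos hη 4]
    have hp : (1 : ℝ) ≤ (x : ℝ) ^ (1 - η / (1 + η) ^ 4) := Real.one_le_rpow hx1 (by linarith)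
    rcases Nat.lt_or_ge x X with h | h
    · have h1 : e ≤ X := by
        have : ((Icc 1 x).filter (fun n => 7 ≤ rep B n)).card ≤ X := by
          refine (card_filter_le _ _).trans ?_
          simp
          omega
        rw [he]
        exact_mod_cast this
      have h4 : (0 : ℝ) ≤ 192 * 256 + K * C := by positivity
      have h5 : (0 : ℝ) ≤ X := Nat.cast_nonneg X
      nlinarith
    · obtain ⟨m, hm1, hm2, hm3⟩ := hB3 x h
      have h1 := pow_bound η hη m x hm1 f hf hm2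
      rw [← hK] at h1
      have h2 : (m : ℝ) ^ η ≤ f m := by
        simp only [hf]
        push_cast
        have h3 := (Nat.lt_floor_add_one ((m : ℝ) ^ η)).le
        have h4 : (0 : ℝ) ≤ (m : ℝ) ^ η := by positivity
        linarith
      have h3 : e * (f m : ℝ) ≤ C * x := by
        rw [he]
        exact_mod_cast hm3
      have h4 : e * (x : ℝ) ^ (η / (1 + η) ^ 4) ≤ K * (C * x) := by
        calc e * (x : ℝ) ^ (η / (1 + η) ^ 4) ≤ e * (K * (f m : ℝ)) := by
              apply mul_le_mul_of_nonneg_left _ he0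
              exact h1.trans (mul_le_mul_of_nonneg_left h2 hK0.le)
          _ = K * (e * f m) := by ring
          _ ≤ K * (C * x) := by gcongr
      have h5 : (x : ℝ) = (x : ℝ) ^ (1 - η / (1 + η) ^ 4) * (x : ℝ) ^ (η / (1 + η) ^ 4) := by
        rw [← Real.rpow_add hx0]
        have : 1 - η / (1 + η) ^ 4 + η / (1 + η) ^ 4 = 1 := by ring
        rw [this, Real.rpow_one]
      set p : ℝ := (x : ℝ) ^ (1 - η / (1 + η) ^ 4) with hpdef
      set q : ℝ := (x : ℝ) ^ (η / (1 + η) ^ 4) with hqdef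
      have hq0 : 0 < q := by positivity
      have h6 : e * q ≤ (K * C * p) * q := by
        rw [h5] at h4
        nlinarith
      have h7 : e ≤ K * C * p := le_of_mul_le_mul_right h6 hq0
      have h8' : (0 : ℝ) ≤ (192 * 256 + X) * p := by positivity
      nlinarith

end Pool.Agent.H53.ET
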